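import Pool.Agent.Work.MP_9b0338_al.Upper

set_option autoImplicit false

/-!
# Assembly: unbounded retreat depth, and finite presentability of the square
-/

namespace Pool.Agent.MP_9b0338_al

/-! ### The generating set -/

theorem gens_symm {G : Type*} [Group G] {a t s : G} (F : Frame a t s) :
    ∀ x ∈ gens a t s, x⁻¹ ∈ gens a t s := by
  rintro x ⟨i, j, hij, hx⟩
  have ha : a⁻¹ = a := inv_eq_of_mul_eq_one_right F.aa
  refine ⟨-i, -j, by unfold Unit3 at *; omega, ?_⟩
  rw [F.tau_neg]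
  rcases hx with rfl | rfl | rfl
  · exact Or.inl rfl
  · right; right
    rw [mul_inv_rev, ha]
  · right; left
    rw [mul_inv_rev, ha]

theorem gens_finite {G : Type*} [Group G] (a t s : G) : (gens a t s).Finite := by
  have h0 : (Set.Icc (-1 : ℤ) 1 ×ˢ Set.Icc (-1 : ℤ) 1).Finite :=
    (Set.finite_Icc _ _).prod (Set.finite_Icc _ _)
  refine ((h0.image (fun p => tau t s p.1 p.2)).union ((h0.image (fun p => tau t s p.1 p.2 * a)).union
    (h0.image (fun p => a * tau t s p.1 p.2)))).subset ?_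
  rintro x ⟨i, j, hij, hx⟩
  have hm : (i, j) ∈ Set.Icc (-1 : ℤ) 1 ×ˢ Set.Icc (-1 : ℤ) 1 := ⟨hij.1, hij.2.1⟩
  rcases hx with rfl | rfl | rfl
  · exact Or.inl ⟨(i, j), hm, rfl⟩
  · exact Or.inr (Or.inl ⟨(i, j), hm, rfl⟩)
  · exact Or.inr (Or.inr ⟨(i, j), hm, rfl⟩)

theorem gens_good {G : Type*} [Group G] (a t s : G) : GoodS (gens a t s) a t s :=
  fun i j hij => ⟨⟨i, j, hij, Or.inl rfl⟩, ⟨i, j, hij, Or.inr (Or.inl rfl)⟩⟩

theorem gens_gen : Subgroup.closure (gens ga gt gs) = ⊤ := by
  rw [eq_top_iff, ← PresentedGroup.closure_range_of rels, Subgroup.closure_le]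
  rintro _ ⟨x, rfl⟩
  have ha : ga ∈ gens ga gt gs := ⟨0, 0, by simp [Unit3], Or.inr (Or.inl (by simp [tau]))⟩
  have ht : gt ∈ gens ga gt gs := ⟨1, 0, by simp [Unit3], Or.inl (by simp [tau])⟩
  have hs : gs ∈ gens ga gt gs := ⟨0, 1, by simp [Unit3], Or.inl (by simp [tau])⟩
  fin_cases x
  · exact Subgroup.subset_closure ha
  · exact Subgroup.subset_closure ht
  · exact Subgroup.subset_closure hs

/-! ### The pocket -/

theorem tri_finite (n : ℕ) : (Tri n).Finite := by
  have h0 : (Set.Icc (-(n : ℤ)) (2 * n) ×ˢ Set.Icc (-(n : ℤ)) (2 * n)).Finite :=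
    (Set.finite_Icc _ _).prod (Set.finite_Icc _ _)
  refine h0.subset ?_
  rintro ⟨i, j⟩ ⟨h1, h2, h3⟩
  simp only at h1 h2 h3
  exact ⟨⟨h1, by simp only; omega⟩, ⟨h2, by simp only; omega⟩⟩

/-- The pocket. -/
def Pocket (n : ℕ) : Set Gam :=
  (fun x : Gam × (ℤ × ℤ) => x.1 * tau gt gs x.2.1 x.2.2) '' ((span ga gt gs (Tri n) : Set Gam) ×ˢ Tri n)

theorem pocket_finite (n : ℕ) : (Pocket n).Finite :=
  (((frame_gam.span_finite (tri_finite n)).prod (tri_finite n)).image _)

theorem xn_mem (n : ℕ) : xn n ∈ Pocket n := by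
  refine ⟨(xn n, (0, 0)), ⟨?_, ?_⟩, ?_⟩
  · refine mul_mem (cj_mem_span ?_) (cj_mem_span ?_)
    · refine ⟨?_, ?_, ?_⟩ <;> simp only <;> omega
    · refine ⟨?_, ?_, ?_⟩ <;> simp only <;> omega
  · refine ⟨?_, ?_, ?_⟩ <;> simp only <;> omega
  · simp [tau]

theorem pocket_exit (n : ℕ) {v : Gam} (hv : v ∈ Pocket n) {x : Gam} (hx : x ∈ gens ga gt gs)
    (hvx : v * x ∉ Pocket n) : v ∈ Ball (gens ga gt gs) (4 * n + 1) := by
  obtain ⟨⟨f, i, j⟩, ⟨hf, hij⟩, rfl⟩ := hv
  simp only at hf hij hvx ⊢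
  obtain ⟨k, l, hkl, hx⟩ := hx
  have F := frame_gam
  have hG := gens_good ga gt gs
  by_cases hint : (i + k, j + l) ∈ Tri n
  · exfalso
    apply hvx
    have hfc1 : f * cj ga gt gs i j ∈ span ga gt gs (Tri n) := mul_mem hf (cj_mem_span hij)
    have hfc2 : f * cj ga gt gs (i + k) (j + l) ∈ span ga gt gs (Tri n) :=
      mul_mem hf (cj_mem_span hint)
    rcases hx with rfl | rfl | rfl
    · refine ⟨(f, (i + k, j + l)), ⟨hf, hint⟩, ?_⟩
      simp only
      rw [F.tau_add, mul_assoc]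
    · refine ⟨(f * cj ga gt gs (i + k) (j + l), (i + k, j + l)), ⟨hfc2, hint⟩, ?_⟩
      simp only
      calc f * cj ga gt gs (i + k) (j + l) * tau gt gs (i + k) (j + l)
          = f * (cj ga gt gs (i + k) (j + l) * tau gt gs (i + k) (j + l)) := by group
        _ = f * (tau gt gs (i + k) (j + l) * ga) := by rw [← Frame.tau_mul_a]
        _ = f * tau gt gs i j * (tau gt gs k l * ga) := by rw [F.tau_add]; group
    · refine ⟨(f * cj ga gt gs i j, (i + k, j + l)), ⟨hfc1, hint⟩, ?_⟩
      simp only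
      calc f * cj ga gt gs i j * tau gt gs (i + k) (j + l)
          = f * (cj ga gt gs i j * tau gt gs i j) * tau gt gs k l := by rw [F.tau_add]; group
        _ = f * (tau gt gs i j * ga) * tau gt gs k l := by rw [← Frame.tau_mul_a]
        _ = f * tau gt gs i j * (ga * tau gt gs k l) := by group
  · obtain ⟨h1, h2, h3⟩ := hij
    simp only at h1 h2 h3
    have hcase : -(n : ℤ) = i ∨ -(n : ℤ) = j ∨ i + j = n := by
      by_contra hc
      apply hint
      unfold Unit3 at hkl
      refine ⟨?_, ?_, ?_⟩ <;> simp only <;> omega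
    rcases hcase with h | h | h
    · exact upper_a F hG n i j h h2 h3 f hf
    · exact upper_b F hG n i j h1 h h3 f hf
    · exact upper_c F hG n i j h1 h2 h f hf

theorem pockets : ∀ D : ℕ, ∃ P : Set Gam, P.Finite ∧ ∃ x ∈ P, ∀ v ∈ P, ∀ s ∈ gens ga gt gs,
    v * s ∉ P → (Cay (gens ga gt gs)).dist 1 v + D < (Cay (gens ga gt gs)).dist 1 x := by
  intro D
  refine ⟨Pocket (D + 2), pocket_finite _, xn ((D + 2 : ℕ) : ℤ), xn_mem _, ?_⟩
  intro v hv x hx hvx
  have h1 := dist_le_of_ball (pocket_exit (D + 2) hv hx hvx)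
  have h2 := mem_ball_dist (gens_symm frame_gam) gens_gen (xn ((D + 2 : ℕ) : ℤ))
  have h3 := lower_bound (n := ((D + 2 : ℕ) : ℤ)) (by push_cast; omega) h2
  push_cast at h3 h1 ⊢
  omega

theorem unbounded : ∀ R : ℕ, ∃ h : Gam, R ≤ (Cay (gens ga gt gs)).dist 1 h := by
  intro R
  refine ⟨xn ((R + 1 : ℕ) : ℤ), ?_⟩
  have h2 := mem_ball_dist (gens_symm frame_gam) gens_gen (xn ((R + 1 : ℕ) : ℤ))
  have h3 := lower_bound (n := ((R + 1 : ℕ) : ℤ)) (by push_cast; omega) h2
  push_cast at h3 ⊢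
  omega

/-! ### Finite presentability of a product -/

open Monoid.Coprod in
/-- The product of two finitely presented groups is finitely presented. -/
theorem finitelyPresented_prod (G H : Type) [Group G] [Group H] [Group.IsFinitelyPresented G]
    [Group.IsFinitelyPresented H] {A : Set G} {B : Set H} (hA : A.Finite) (hB : B.Finite)
    (hAg : Subgroup.closure A = ⊤) (hBg : Subgroup.closure B = ⊤) :
    Group.IsFinitelyPresented (G × H) := by
  refine Group.IsFinitelyPresented.of_surjective (Monoid.Coprod.toProd : Monoid.Coprod G H →* G × H)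
    Monoid.Coprod.toProd_surjective ?_
  let R : Set (Monoid.Coprod G H) :=
    (fun p : G × H => (inl p.1 : Monoid.Coprod G H) * inr p.2 * (inl p.1)⁻¹ * (inr p.2)⁻¹) '' (A ×ˢ B)
  refine ⟨R, (hA.prod hB).image _, ?_⟩
  apply le_antisymm
  · apply Subgroup.normalClosure_le_normal
    rintro _ ⟨⟨x, y⟩, _, rfl⟩
    simp
  · let N := Subgroup.normalClosure R
    let π : Monoid.Coprod G H →* (Monoid.Coprod G H ⧸ N) := QuotientGroup.mk' N
    have hcomm0 : ∀ x ∈ A, ∀ y ∈ B, Commute (π (inl x)) (π (inr y)) := by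
      intro x hx y hy
      have h1 : (inl x : Monoid.Coprod G H) * inr y * (inl x)⁻¹ * (inr y)⁻¹ ∈ N :=
        Subgroup.subset_normalClosure ⟨(x, y), ⟨hx, hy⟩, rfl⟩
      have h2 : π ((inl x : Monoid.Coprod G H) * inr y * (inl x)⁻¹ * (inr y)⁻¹) = 1 :=
        (QuotientGroup.eq_one_iff _).2 h1
      rw [map_mul, map_mul, map_mul, map_inv, map_inv, mul_inv_eq_one, mul_inv_eq_iff_eq_mul] at h2
      exact h2
    have hcomm1 : ∀ x : G, ∀ y ∈ B, Commute (π (inl x)) (π (inr y)) := by
      intro x y hy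
      have h3 : Subgroup.closure A ≤
          (Subgroup.centralizer {π (inr y)}).comap (π.comp (inl : G →* Monoid.Coprod G H)) := by
        rw [Subgroup.closure_le]
        intro z hz
        rw [SetLike.mem_coe, Subgroup.mem_comap, Subgroup.mem_centralizer_singleton_iff]
        exact (hcomm0 z hz y hy).eq
      have h4 : x ∈ Subgroup.closure A := by rw [hAg]; trivial
      have h5 := h3 h4
      rw [Subgroup.mem_comap, Subgroup.mem_centralizer_singleton_iff] at h5
      exact h5
    have hcomm : ∀ x : G, ∀ y : H, Commute (π (inl x)) (π (inr y)) := by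
      intro x y
      have h3 : Subgroup.closure B ≤
          (Subgroup.centralizer {π (inl x)}).comap (π.comp (inr : H →* Monoid.Coprod G H)) := by
        rw [Subgroup.closure_le]
        intro z hz
        rw [SetLike.mem_coe, Subgroup.mem_comap, Subgroup.mem_centralizer_singleton_iff]
        exact (hcomm1 x z hz).symm.eq
      have h4 : y ∈ Subgroup.closure B := by rw [hBg]; trivial
      have h5 := h3 h4
      rw [Subgroup.mem_comap, Subgroup.mem_centralizer_singleton_iff] at h5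
      exact h5.symm
    let Φ : G × H →* (Monoid.Coprod G H ⧸ N) :=
      MonoidHom.noncommCoprod (π.comp inl) (π.comp inr) hcomm
    have hΦ : Φ.comp toProd = π := by
      apply Monoid.Coprod.hom_ext
      · ext x
        simp [Φ, MonoidHom.noncommCoprod_apply]
      · ext x
        simp [Φ, MonoidHom.noncommCoprod_apply]
    intro z hz
    rw [MonoidHom.mem_ker] at hz
    have h1 : π z = 1 := by
      rw [← hΦ, MonoidHom.comp_apply, hz, map_one]
    exact (QuotientGroup.eq_one_iff _).1 h1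

theorem rels_finite : rels.Finite := by
  unfold rels
  exact Set.toFinite _

theorem fp_square : Group.IsFinitelyPresented (Gam × Gam) := by
  have : Finite rels := rels_finite
  exact finitelyPresented_prod Gam Gam (gens_finite ga gt gs) (gens_finite ga gt gs)
    gens_gen gens_gen

end Pool.Agent.MP_9b0338_al
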