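import Mathlib

set_option autoImplicit false

/-!
# Three-dot frames

In a group, an involution `a` and commuting elements `t`, `s` with `s a s⁻¹ = a (t a t⁻¹)`.
-/

namespace Pool.Agent.MP_9b0338_al

variable {G : Type*} [Group G]

/-- The three-dot relations. -/
structure Frame (a t s : G) : Prop where
  aa : a * a = 1
  comm : Commute s t
  rel : s * a * s⁻¹ = a * (t * a * t⁻¹)

/-- The translation `t ^ i * s ^ j`. -/
def tau (t s : G) (i j : ℤ) : G := t ^ i * s ^ j

/-- The conjugate of `a` by the translation `(i, j)`. -/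
def cj (a t s : G) (i j : ℤ) : G := tau t s i j * a * (tau t s i j)⁻¹

namespace Frame

variable {a t s : G} (F : Frame a t s)

include F

theorem tau_add (i j k l : ℤ) : tau t s (i + k) (j + l) = tau t s i j * tau t s k l := by
  unfold tau
  rw [zpow_add, zpow_add]
  have h : Commute (s ^ j) (t ^ k) := (F.comm.zpow_zpow j k)
  calc t ^ i * t ^ k * (s ^ j * s ^ l) = t ^ i * (t ^ k * s ^ j) * s ^ l := by group
    _ = t ^ i * (s ^ j * t ^ k) * s ^ l := by rw [h.eq]
    _ = t ^ i * s ^ j * (t ^ k * s ^ l) := by group

omit F in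
theorem tau_zero : tau t s 0 0 = 1 := by simp [tau]

theorem tau_neg (i j : ℤ) : tau t s (-i) (-j) = (tau t s i j)⁻¹ := by
  rw [eq_inv_iff_mul_eq_one, ← F.tau_add]
  simp [tau]

omit F in
theorem cj_zero : cj a t s 0 0 = a := by simp [cj, tau]

theorem conj_cj (i j k l : ℤ) :
    tau t s i j * cj a t s k l * (tau t s i j)⁻¹ = cj a t s (i + k) (j + l) := by
  unfold cj
  rw [F.tau_add]
  group

theorem tau_mul_cj (i j k l : ℤ) :
    tau t s i j * cj a t s k l = cj a t s (i + k) (j + l) * tau t s i j := by
  rw [← F.conj_cj]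
  group

omit F in
theorem tau_mul_a (i j : ℤ) : tau t s i j * a = cj a t s i j * tau t s i j := by
  unfold cj
  group

theorem cj_sq (i j : ℤ) : cj a t s i j * cj a t s i j = 1 := by
  unfold cj
  calc tau t s i j * a * (tau t s i j)⁻¹ * (tau t s i j * a * (tau t s i j)⁻¹)
      = tau t s i j * (a * a) * (tau t s i j)⁻¹ := by group
    _ = 1 := by rw [F.aa]; group

theorem cj_inv (i j : ℤ) : (cj a t s i j)⁻¹ = cj a t s i j := by
  rw [inv_eq_iff_mul_eq_one]
  exact F.cj_sq i j

theorem cj_succ (i j : ℤ) : cj a t s i (j + 1) = cj a t s i j * cj a t s (i + 1) j := by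
  have h0 : cj a t s 0 1 = cj a t s 0 0 * cj a t s 1 0 := by
    simpa [cj, tau] using F.rel
  have h1 : tau t s i j * cj a t s 0 1 * (tau t s i j)⁻¹ =
      tau t s i j * (cj a t s 0 0 * cj a t s 1 0) * (tau t s i j)⁻¹ := by rw [h0]
  rw [F.conj_cj] at h1
  have h2 : tau t s i j * (cj a t s 0 0 * cj a t s 1 0) * (tau t s i j)⁻¹ =
      (tau t s i j * cj a t s 0 0 * (tau t s i j)⁻¹) *
        (tau t s i j * cj a t s 1 0 * (tau t s i j)⁻¹) := by group
  rw [h2, F.conj_cj, F.conj_cj] at h1
  simpa using h1

/-- Translation invariance of commutation. -/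
theorem commute_shift {i j k l : ℤ} (p q : ℤ) (h : Commute (cj a t s i j) (cj a t s k l)) :
    Commute (cj a t s (p + i) (q + j)) (cj a t s (p + k) (q + l)) := by
  rw [← F.conj_cj, ← F.conj_cj]
  exact (Commute.conj_iff _).2 h

/-- Neighbours along the first axis commute. -/
theorem commute_one (i j : ℤ) : Commute (cj a t s i j) (cj a t s (i + 1) j) := by
  have h := F.cj_sq i (j + 1)
  rw [F.cj_succ] at h
  have h1 := F.cj_sq i j
  have h2 := F.cj_sq (i + 1) j
  generalize cj a t s i j = x at *
  generalize cj a t s (i + 1) j = y at *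
  -- (x y)(x y) = 1, x x = 1, y y = 1
  change x * y = y * x
  have hx : x⁻¹ = x := inv_eq_of_mul_eq_one_right h1
  have hy : y⁻¹ = y := inv_eq_of_mul_eq_one_right h2
  have hxy : x * y = (x * y)⁻¹ := (inv_eq_of_mul_eq_one_right h).symm
  rw [hxy, mul_inv_rev, hx, hy]

theorem commute_axis_nat (n : ℕ) (j : ℤ) (i : ℤ) :
    Commute (cj a t s i j) (cj a t s (i + n) j) := by
  induction n using Nat.strong_induction_on generalizing i j with
  | _ n ih =>
    rcases n with _ | n
    · simp
    rcases n with _ | n
    · simpa using F.commute_one i j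
    -- cj i (j+1) commutes with cj (i+n+1) (j+1)
    have h1 := ih (n + 1) (by omega) (j + 1) i
    rw [F.cj_succ, F.cj_succ] at h1
    have h2 := ih (n + 1) (by omega) j i
    have h3 := ih n (by omega) j (i + 1)
    have h4 := ih (n + 1) (by omega) j (i + 1)
    have e1 : i + 1 + (n : ℤ) = i + ((n + 1 : ℕ) : ℤ) := by push_cast; ring
    have e2 : i + 1 + ((n + 1 : ℕ) : ℤ) = i + ((n + 1 + 1 : ℕ) : ℤ) := by push_cast; ring
    have e3 : i + ((n + 1 : ℕ) : ℤ) + 1 = i + ((n + 1 + 1 : ℕ) : ℤ) := by push_cast; ring
    rw [e1] at h3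
    rw [e2] at h4
    rw [e3] at h1
    generalize cj a t s i j = x at *
    generalize cj a t s (i + 1) j = x' at *
    generalize cj a t s (i + ((n + 1 : ℕ) : ℤ)) j = z at *
    generalize cj a t s (i + ((n + 1 + 1 : ℕ) : ℤ)) j = z' at *
    -- x x' commutes with z z'; x ~ z, x' ~ z, x' ~ z'
    have h5 : Commute (x * x') (z * z') := h1
    have h6 : Commute (x * x') z := h2.mul_left h3
    have h7 : Commute (x * x') z' := by
      have := (h6.inv_right).mul_right h5
      simpa using this
    have h8 : Commute x z' := by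
      have := h7.mul_left (h4.inv_left)
      simpa using this
    exact h8

theorem commute_axis (i k j : ℤ) : Commute (cj a t s i j) (cj a t s k j) := by
  rcases le_total i k with h | h
  · obtain ⟨n, rfl⟩ := Int.le.dest h
    exact F.commute_axis_nat n j i
  · obtain ⟨n, rfl⟩ := Int.le.dest h
    exact (F.commute_axis_nat n j k).symm

/-- An element commuting with a whole horizontal line commutes with all lines above. -/
theorem commute_up (g : G) (j : ℤ) (h : ∀ i, Commute g (cj a t s i j)) (n : ℕ) :
    ∀ i, Commute g (cj a t s i (j + n)) := by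
  induction n with
  | zero => simpa using h
  | succ n ih =>
    intro i
    have e : j + ((n + 1 : ℕ) : ℤ) = j + (n : ℤ) + 1 := by push_cast; ring
    rw [e, F.cj_succ]
    exact (ih i).mul_right (ih (i + 1))

/-- All conjugates of `a` by translations commute. -/
theorem commute_all (i j k l : ℤ) : Commute (cj a t s i j) (cj a t s k l) := by
  rcases le_total j l with h | h
  · obtain ⟨n, rfl⟩ := Int.le.dest h
    exact F.commute_up _ j (fun k => F.commute_axis i k j) n k
  · obtain ⟨n, rfl⟩ := Int.le.dest h
    exact (F.commute_up _ l (fun i => F.commute_axis k i l) n i).symm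

end Frame

/-- The subgroup generated by the conjugates of `a` at positions in `V`. -/
def span (a t s : G) (V : Set (ℤ × ℤ)) : Subgroup G :=
  Subgroup.closure ((fun p : ℤ × ℤ => cj a t s p.1 p.2) '' V)

theorem cj_mem_span {a t s : G} {V : Set (ℤ × ℤ)} {i j : ℤ} (h : (i, j) ∈ V) :
    cj a t s i j ∈ span a t s V :=
  Subgroup.subset_closure ⟨(i, j), h, rfl⟩

theorem span_mono {a t s : G} {V W : Set (ℤ × ℤ)} (h : V ⊆ W) : span a t s V ≤ span a t s W :=
  Subgroup.closure_mono (Set.image_mono h)

theorem span_le {a t s : G} {V : Set (ℤ × ℤ)} {K : Subgroup G}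
    (h : ∀ i j, (i, j) ∈ V → cj a t s i j ∈ K) : span a t s V ≤ K := by
  unfold span
  rw [Subgroup.closure_le]
  rintro _ ⟨⟨i, j⟩, hp, rfl⟩
  exact h i j hp

namespace Frame

variable {a t s : G} (F : Frame a t s)

include F

theorem commute_span {V : Set (ℤ × ℤ)} {f : G} (hf : f ∈ span a t s V) (k l : ℤ) :
    Commute f (cj a t s k l) := by
  have h : span a t s V ≤ Subgroup.centralizer {cj a t s k l} := by
    apply span_le
    intro i j _
    rw [Subgroup.mem_centralizer_singleton_iff]
    exact (F.commute_all i j k l).eq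
  have := h hf
  rw [Subgroup.mem_centralizer_singleton_iff] at this
  exact this

/-- Elements of the span of `insert p V`. -/
theorem mem_span_insert {V : Set (ℤ × ℤ)} {k l : ℤ} {f : G}
    (hf : f ∈ span a t s (insert (k, l) V)) :
    f ∈ span a t s V ∨ f * cj a t s k l ∈ span a t s V := by
  unfold span at hf
  induction hf using Subgroup.closure_induction with
  | mem x hx =>
    obtain ⟨⟨i, j⟩, hp, rfl⟩ := hx
    rcases hp with hp | hp
    · right
      rw [Prod.mk.injEq] at hp
      obtain ⟨rfl, rfl⟩ := hp
      simp only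
      rw [F.cj_sq]
      exact one_mem _
    · left
      exact cj_mem_span hp
  | one => exact Or.inl (one_mem _)
  | mul x y _ _ hx hy =>
    rcases hx with hx | hx <;> rcases hy with hy | hy
    · exact Or.inl (mul_mem hx hy)
    · right
      rw [mul_assoc]
      exact mul_mem hx hy
    · right
      have : x * y * cj a t s k l = x * cj a t s k l * y := by
        rw [mul_assoc, (F.commute_span hy k l).eq, mul_assoc]
      rw [this]
      exact mul_mem hx hy
    · left
      have hc := F.commute_span hy k l
      -- y * c commutes with c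
      have : x * y = (x * cj a t s k l) * (y * cj a t s k l) := by
        have h1 : x * cj a t s k l * (y * cj a t s k l) =
            x * (cj a t s k l * (y * cj a t s k l)) := by group
        rw [h1, ← hc.eq]
        have h2 : x * (y * cj a t s k l * cj a t s k l) =
            x * y * (cj a t s k l * cj a t s k l) := by group
        rw [h2, F.cj_sq, mul_one]
      rw [this]
      exact mul_mem hx hy
  | inv x _ hx =>
    rcases hx with hx | hx
    · exact Or.inl (inv_mem hx)
    · right
      have hc := F.commute_span hx k l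
      have h1 := inv_mem hx
      rw [mul_inv_rev, F.cj_inv] at h1
      -- cj * x⁻¹ ∈ span
      have h2 : Commute (x * cj a t s k l) (cj a t s k l) := hc
      have h3 : Commute x (cj a t s k l) := by
        have := h2.mul_left ((Commute.refl (cj a t s k l)).inv_left)
        simpa using this
      rw [h3.inv_left.eq]
      exact h1

theorem span_finite {V : Set (ℤ × ℤ)} (hV : V.Finite) : (span a t s V : Set G).Finite := by
  induction V, hV using Set.Finite.induction_on with
  | empty => simp [span]
  | @insert p V _ _ ih =>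
    obtain ⟨k, l⟩ := p
    refine (ih.union (ih.image (fun g => g * cj a t s k l))).subset ?_
    intro f hf
    rcases F.mem_span_insert hf with h | h
    · exact Or.inl h
    · right
      refine ⟨_, h, ?_⟩
      simp only
      rw [mul_assoc, F.cj_sq, mul_one]

/-- The three-dot closure property. -/
theorem span_three {V : Set (ℤ × ℤ)} (i j : ℤ) :
    (cj a t s i j ∈ span a t s V → cj a t s (i + 1) j ∈ span a t s V →
      cj a t s i (j + 1) ∈ span a t s V) ∧
    (cj a t s i j ∈ span a t s V → cj a t s i (j + 1) ∈ span a t s V →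
      cj a t s (i + 1) j ∈ span a t s V) ∧
    (cj a t s (i + 1) j ∈ span a t s V → cj a t s i (j + 1) ∈ span a t s V →
      cj a t s i j ∈ span a t s V) := by
  have h := F.cj_succ i j
  refine ⟨fun h1 h2 => ?_, fun h1 h2 => ?_, fun h1 h2 => ?_⟩
  · rw [h]; exact mul_mem h1 h2
  · have : cj a t s (i + 1) j = (cj a t s i j)⁻¹ * cj a t s i (j + 1) := by
      rw [h]; group
    rw [this]; exact mul_mem (inv_mem h1) h2
  · have : cj a t s i j = cj a t s i (j + 1) * (cj a t s (i + 1) j)⁻¹ := by
      rw [h]; group
    rw [this]; exact mul_mem h2 (inv_mem h1)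

end Frame

end Pool.Agent.MP_9b0338_al
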