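import Mathlib

set_option autoImplicit false

/-!
# Word length, Cayley graphs and retreat depth of products
-/

namespace Pool.Agent.MP_9b0338_al

/-- The Cayley graph, in the form used by the frozen statement. -/
abbrev Cay {G : Type*} [Group G] (S : Set G) : SimpleGraph G :=
  SimpleGraph.fromRel (fun a b : G => a⁻¹ * b ∈ S)

/-- The ball of radius `n`: products of `n` elements of `S ∪ {1}`. -/
def Ball {G : Type*} [Group G] (S : Set G) : ℕ → Set G
  | 0 => {1}
  | n + 1 => {g | ∃ h ∈ Ball S n, ∃ x ∈ insert 1 S, g = h * x}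

section Ball

variable {G : Type*} [Group G] {S : Set G}

theorem ball_succ_self {n : ℕ} {g : G} (h : g ∈ Ball S n) : g ∈ Ball S (n + 1) :=
  ⟨g, h, 1, Set.mem_insert _ _, (mul_one g).symm⟩

theorem ball_mono {n m : ℕ} (hnm : n ≤ m) {g : G} (h : g ∈ Ball S n) : g ∈ Ball S m := by
  induction m, hnm using Nat.le_induction with
  | base => exact h
  | succ m _ ih => exact ball_succ_self ih

theorem ball_mul_mem {n : ℕ} {g x : G} (h : g ∈ Ball S n) (hx : x ∈ S) :
    g * x ∈ Ball S (n + 1) :=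
  ⟨g, h, x, Set.mem_insert_of_mem _ hx, rfl⟩

theorem one_mem_ball (n : ℕ) : (1 : G) ∈ Ball S n :=
  ball_mono (Nat.zero_le n) rfl

theorem ball_mul {n m : ℕ} {g h : G} (hg : g ∈ Ball S n) (hh : h ∈ Ball S m) :
    g * h ∈ Ball S (n + m) := by
  induction m generalizing h with
  | zero =>
    have : h = 1 := hh
    subst this
    simpa using hg
  | succ m ih =>
    obtain ⟨k, hk, x, hx, rfl⟩ := hh
    exact ⟨g * k, ih hk, x, hx, (mul_assoc _ _ _).symm⟩

theorem mem_ball_one {x : G} (hx : x ∈ S) : x ∈ Ball S 1 := by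
  have := ball_mul_mem (one_mem_ball (S := S) 0) hx
  simpa using this

theorem ball_inv (hS : ∀ x ∈ S, x⁻¹ ∈ S) {n : ℕ} {g : G} (hg : g ∈ Ball S n) :
    g⁻¹ ∈ Ball S n := by
  induction n generalizing g with
  | zero =>
    have : g = 1 := hg
    subst this
    simpa using one_mem_ball 0
  | succ n ih =>
    obtain ⟨k, hk, x, hx, rfl⟩ := hg
    rw [mul_inv_rev, add_comm]
    refine ball_mul ?_ (ih hk)
    rcases hx with rfl | hx
    · simpa using one_mem_ball 1
    · exact mem_ball_one (hS x hx)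

theorem exists_ball (hS : ∀ x ∈ S, x⁻¹ ∈ S) (hgen : Subgroup.closure S = ⊤) (g : G) :
    ∃ n, g ∈ Ball S n := by
  have hg : g ∈ Subgroup.closure S := by rw [hgen]; trivial
  induction hg using Subgroup.closure_induction with
  | mem x hx => exact ⟨1, mem_ball_one hx⟩
  | one => exact ⟨0, rfl⟩
  | mul x y _ _ hx hy =>
    obtain ⟨n, hn⟩ := hx
    obtain ⟨m, hm⟩ := hy
    exact ⟨n + m, ball_mul hn hm⟩
  | inv x _ hx =>
    obtain ⟨n, hn⟩ := hx
    exact ⟨n, ball_inv hS hn⟩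

theorem walk_of_ball {n : ℕ} {g : G} (hg : g ∈ Ball S n) (u : G) :
    ∃ p : (Cay S).Walk u (u * g), p.length ≤ n := by
  induction n generalizing g with
  | zero =>
    have : g = 1 := hg
    subst this
    rw [mul_one]
    exact ⟨SimpleGraph.Walk.nil, le_rfl⟩
  | succ n ih =>
    obtain ⟨k, hk, x, hx, rfl⟩ := hg
    obtain ⟨p, hp⟩ := ih hk
    by_cases h1 : x = 1
    · subst h1
      rw [mul_one]
      exact ⟨p, by omega⟩
    · have hxS : x ∈ S := by
        rcases hx with hx | hx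
        · exact absurd hx h1
        · exact hx
      have hadj : (Cay S).Adj (u * k) (u * (k * x)) := by
        rw [SimpleGraph.fromRel_adj]
        refine ⟨?_, Or.inl ?_⟩
        · intro h
          apply h1
          rw [← mul_assoc] at h
          exact (left_eq_mul.1 h)
        · have : (u * k)⁻¹ * (u * (k * x)) = x := by group
          rw [this]; exact hxS
      refine ⟨p.append (SimpleGraph.Walk.cons hadj SimpleGraph.Walk.nil), ?_⟩
      rw [SimpleGraph.Walk.length_append]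
      simp
      exact hp

theorem ball_of_walk (hS : ∀ x ∈ S, x⁻¹ ∈ S) {u v : G} (p : (Cay S).Walk u v) :
    u⁻¹ * v ∈ Ball S p.length := by
  induction p with
  | nil => simpa using one_mem_ball 0
  | @cons u w v hadj p ih =>
    have h1 : u⁻¹ * v = (u⁻¹ * w) * (w⁻¹ * v) := by group
    rw [h1, SimpleGraph.Walk.length_cons, add_comm]
    refine ball_mul (mem_ball_one ?_) ih
    rw [SimpleGraph.fromRel_adj] at hadj
    rcases hadj.2 with h | h
    · exact h
    · have := hS _ h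
      rw [mul_inv_rev, inv_inv] at this
      exact this

theorem dist_le_of_ball {n : ℕ} {g : G} (hg : g ∈ Ball S n) : (Cay S).dist 1 g ≤ n := by
  obtain ⟨p, hp⟩ := walk_of_ball hg 1
  have h := (SimpleGraph.dist_le p).trans hp
  rw [one_mul] at h
  exact h

theorem reachable (hS : ∀ x ∈ S, x⁻¹ ∈ S) (hgen : Subgroup.closure S = ⊤) (u v : G) :
    (Cay S).Reachable u v := by
  obtain ⟨n, hn⟩ := exists_ball hS hgen (u⁻¹ * v)
  obtain ⟨p, _⟩ := walk_of_ball hn u
  have : u * (u⁻¹ * v) = v := by group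
  rw [this] at p
  exact ⟨p⟩

theorem mem_ball_dist (hS : ∀ x ∈ S, x⁻¹ ∈ S) (hgen : Subgroup.closure S = ⊤) (g : G) :
    g ∈ Ball S ((Cay S).dist 1 g) := by
  obtain ⟨p, hp⟩ := (reachable hS hgen 1 g).exists_walk_length_eq_dist
  have := ball_of_walk hS p
  rw [hp] at this
  simpa using this

theorem dist_le_iff (hS : ∀ x ∈ S, x⁻¹ ∈ S) (hgen : Subgroup.closure S = ⊤) {n : ℕ} {g : G} :
    (Cay S).dist 1 g ≤ n ↔ g ∈ Ball S n :=
  ⟨fun h => ball_mono h (mem_ball_dist hS hgen g), dist_le_of_ball⟩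

end Ball

/-- Bounded retreat depth, in the form used by the frozen statement. -/
def BR {G : Type*} [Group G] (S : Set G) : Prop :=
  ∃ D : ℕ, ∀ g : G, ∀ R : ℕ, ∃ h : G, R ≤ (Cay S).dist 1 h ∧
    ∃ p : (Cay S).Walk g h, ∀ v ∈ p.support, (Cay S).dist 1 g ≤ (Cay S).dist 1 v + D

section Product

variable {G : Type*} [Group G] (S : Set G)

/-- The generating set `S ⊥ S`. -/
def perp : Set (G × G) := {p | (p.1 ∈ S ∧ p.2 = 1) ∨ (p.1 = 1 ∧ p.2 ∈ S)}

/-- The generating set `S ∨ S`. -/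
def vee : Set (G × G) := {p | p.1 ∈ insert 1 S ∧ p.2 ∈ insert 1 S}

variable {S}

theorem perp_symm (hS : ∀ x ∈ S, x⁻¹ ∈ S) : ∀ x ∈ perp S, x⁻¹ ∈ perp S := by
  rintro ⟨x, y⟩ (⟨h1, h2⟩ | ⟨h1, h2⟩)
  · left
    simp only at h2
    exact ⟨hS x h1, by simp [h2]⟩
  · right
    simp only at h1
    exact ⟨by simp [h1], hS y h2⟩

theorem insert_symm (hS : ∀ x ∈ S, x⁻¹ ∈ S) : ∀ x ∈ insert 1 S, x⁻¹ ∈ insert 1 S := by
  rintro x (rfl | hx)
  · left; simp
  · right; exact hS x hx

theorem vee_symm (hS : ∀ x ∈ S, x⁻¹ ∈ S) : ∀ x ∈ vee S, x⁻¹ ∈ vee S := by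
  rintro ⟨x, y⟩ ⟨h1, h2⟩
  exact ⟨insert_symm hS x h1, insert_symm hS y h2⟩

theorem perp_finite (hS : S.Finite) : (perp S).Finite := by
  refine ((hS.prod (Set.finite_singleton (1 : G))).union
    ((Set.finite_singleton (1 : G)).prod hS)).subset ?_
  rintro ⟨x, y⟩ (⟨h1, h2⟩ | ⟨h1, h2⟩)
  · left; exact ⟨h1, h2⟩
  · right; exact ⟨h1, h2⟩

theorem vee_finite (hS : S.Finite) : (vee S).Finite :=
  ((hS.insert 1).prod (hS.insert 1)).subset fun _ h => h

theorem perp_gen (hgen : Subgroup.closure S = ⊤) : Subgroup.closure (perp S) = ⊤ := by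
  rw [eq_top_iff]
  rintro ⟨g, h⟩ _
  have h1 : ∀ g : G, (g, (1 : G)) ∈ Subgroup.closure (perp S) := by
    intro g
    have hg : g ∈ Subgroup.closure S := by rw [hgen]; trivial
    have : Subgroup.closure S ≤ (Subgroup.closure (perp S)).comap (MonoidHom.inl G G) := by
      rw [Subgroup.closure_le]
      intro x hx
      exact Subgroup.subset_closure (Or.inl ⟨hx, rfl⟩)
    exact this hg
  have h2 : ∀ g : G, ((1 : G), g) ∈ Subgroup.closure (perp S) := by
    intro g
    have hg : g ∈ Subgroup.closure S := by rw [hgen]; trivial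
    have : Subgroup.closure S ≤ (Subgroup.closure (perp S)).comap (MonoidHom.inr G G) := by
      rw [Subgroup.closure_le]
      intro x hx
      exact Subgroup.subset_closure (Or.inr ⟨rfl, hx⟩)
    exact this hg
  have h3 : (g, h) = (g, (1 : G)) * ((1 : G), h) := by simp
  rw [h3]
  exact mul_mem (h1 g) (h2 h)

theorem perp_subset_vee : perp S ⊆ vee S := by
  rintro ⟨x, y⟩ (⟨h1, h2⟩ | ⟨h1, h2⟩)
  · exact ⟨Set.mem_insert_of_mem _ h1, Or.inl h2⟩
  · exact ⟨Or.inl h1, Set.mem_insert_of_mem _ h2⟩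

theorem vee_gen (hgen : Subgroup.closure S = ⊤) : Subgroup.closure (vee S) = ⊤ := by
  rw [eq_top_iff, ← perp_gen hgen]
  exact Subgroup.closure_mono perp_subset_vee

theorem ball_perp_inl {n : ℕ} {g : G} (hg : g ∈ Ball S n) : (g, (1 : G)) ∈ Ball (perp S) n := by
  induction n generalizing g with
  | zero =>
    have : g = 1 := hg
    subst this
    exact rfl
  | succ n ih =>
    obtain ⟨k, hk, x, hx, rfl⟩ := hg
    refine ⟨_, ih hk, (x, 1), ?_, by simp⟩
    rcases hx with rfl | hx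
    · exact Or.inl rfl
    · exact Or.inr (Or.inl ⟨hx, rfl⟩)

theorem ball_perp_inr {n : ℕ} {g : G} (hg : g ∈ Ball S n) : ((1 : G), g) ∈ Ball (perp S) n := by
  induction n generalizing g with
  | zero =>
    have : g = 1 := hg
    subst this
    exact rfl
  | succ n ih =>
    obtain ⟨k, hk, x, hx, rfl⟩ := hg
    refine ⟨_, ih hk, (1, x), ?_, by simp⟩
    rcases hx with rfl | hx
    · exact Or.inl rfl
    · exact Or.inr (Or.inr ⟨rfl, hx⟩)

theorem ball_perp_mk {n m : ℕ} {g h : G} (hg : g ∈ Ball S n) (hh : h ∈ Ball S m) :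
    (g, h) ∈ Ball (perp S) (n + m) := by
  have h3 : (g, h) = (g, (1 : G)) * ((1 : G), h) := by simp
  rw [h3]
  exact ball_mul (ball_perp_inl hg) (ball_perp_inr hh)

theorem ball_perp_split {n : ℕ} {g h : G} (hgh : (g, h) ∈ Ball (perp S) n) :
    ∃ i j, i + j ≤ n ∧ g ∈ Ball S i ∧ h ∈ Ball S j := by
  induction n generalizing g h with
  | zero =>
    have : (g, h) = 1 := hgh
    rw [Prod.mk_eq_one] at this
    exact ⟨0, 0, le_rfl, this.1, this.2⟩
  | succ n ih =>
    obtain ⟨⟨k, l⟩, hk, ⟨x, y⟩, hx, he⟩ := hgh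
    rw [Prod.mk_mul_mk, Prod.mk.injEq] at he
    obtain ⟨rfl, rfl⟩ := he
    obtain ⟨i, j, hij, hi, hj⟩ := ih hk
    rcases hx with hx | ⟨h1, h2⟩ | ⟨h1, h2⟩
    · rw [Prod.mk_eq_one] at hx
      obtain ⟨rfl, rfl⟩ := hx
      exact ⟨i, j, by omega, by simpa using hi, by simpa using hj⟩
    · simp only at h1 h2
      subst h2
      exact ⟨i + 1, j, by omega, ball_mul_mem hi h1, by simpa using hj⟩
    · simp only at h1 h2
      subst h1
      exact ⟨i, j + 1, by omega, by simpa using hi, ball_mul_mem hj h2⟩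

theorem ball_vee {n : ℕ} {g h : G} :
    (g, h) ∈ Ball (vee S) n ↔ g ∈ Ball S n ∧ h ∈ Ball S n := by
  induction n generalizing g h with
  | zero =>
    constructor
    · intro hgh
      have : (g, h) = 1 := hgh
      rw [Prod.mk_eq_one] at this
      exact ⟨this.1, this.2⟩
    · rintro ⟨h1, h2⟩
      have h1' : g = 1 := h1
      have h2' : h = 1 := h2
      subst h1'
      subst h2'
      exact rfl
  | succ n ih =>
    constructor
    · rintro ⟨⟨k, l⟩, hk, ⟨x, y⟩, hx, he⟩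
      rw [Prod.mk_mul_mk, Prod.mk.injEq] at he
      obtain ⟨rfl, rfl⟩ := he
      rw [ih] at hk
      have hxy : x ∈ insert 1 S ∧ y ∈ insert 1 S := by
        rcases hx with hx | hx
        · rw [Prod.mk_eq_one] at hx
          obtain ⟨rfl, rfl⟩ := hx
          exact ⟨Or.inl rfl, Or.inl rfl⟩
        · exact hx
      exact ⟨⟨k, hk.1, x, hxy.1, rfl⟩, ⟨l, hk.2, y, hxy.2, rfl⟩⟩
    · rintro ⟨⟨k, hk, x, hx, rfl⟩, ⟨l, hl, y, hy, rfl⟩⟩
      exact ⟨(k, l), ih.2 ⟨hk, hl⟩, (x, y), Or.inr ⟨hx, hy⟩, rfl⟩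

/-- The supremum generating set has retreat depth zero. -/
theorem BR_vee (hS : ∀ x ∈ S, x⁻¹ ∈ S) (hgen : Subgroup.closure S = ⊤)
    (hub : ∀ R : ℕ, ∃ h : G, R ≤ (Cay S).dist 1 h) : BR (vee S) := by
  have hle : ∀ (g h : G) (n : ℕ), (Cay (vee S)).dist 1 (g, h) ≤ n ↔
      (Cay S).dist 1 g ≤ n ∧ (Cay S).dist 1 h ≤ n := by
    intro g h n
    rw [dist_le_iff (vee_symm hS) (vee_gen hgen), ball_vee, dist_le_iff hS hgen,
      dist_le_iff hS hgen]
  have hg1 : ∀ g h : G, (Cay S).dist 1 g ≤ (Cay (vee S)).dist 1 (g, h) :=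
    fun g h => ((hle g h _).1 le_rfl).1
  have hg2 : ∀ g h : G, (Cay S).dist 1 h ≤ (Cay (vee S)).dist 1 (g, h) :=
    fun g h => ((hle g h _).1 le_rfl).2
  refine ⟨0, ?_⟩
  rintro ⟨g, h⟩ R
  obtain ⟨k, hk⟩ := hub R
  rcases le_total ((Cay S).dist 1 h) ((Cay S).dist 1 g) with hgh | hgh
  · -- move the second coordinate
    refine ⟨(g, k), hk.trans (hg2 g k), ?_⟩
    obtain ⟨p⟩ := reachable hS hgen h k
    let φ : Cay S →g Cay (vee S) :=
      { toFun := fun v => (g, v)
        map_rel' := by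
          intro u v huv
          rw [SimpleGraph.fromRel_adj] at huv ⊢
          refine ⟨fun he => huv.1 (Prod.mk.inj he).2, ?_⟩
          rcases huv.2 with h1 | h1
          · left
            refine ⟨?_, Or.inr h1⟩
            left
            simp
          · right
            refine ⟨?_, Or.inr h1⟩
            left
            simp }
    refine ⟨p.map φ, ?_⟩
    intro v hv
    rw [SimpleGraph.Walk.support_map, List.mem_map] at hv
    obtain ⟨w, _, rfl⟩ := hv
    have h1 : (Cay (vee S)).dist 1 (g, h) ≤ (Cay S).dist 1 g := (hle g h _).2 ⟨le_rfl, hgh⟩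
    exact h1.trans (hg1 g w)
  · refine ⟨(k, h), hk.trans (hg1 k h), ?_⟩
    obtain ⟨p⟩ := reachable hS hgen g k
    let φ : Cay S →g Cay (vee S) :=
      { toFun := fun v => (v, h)
        map_rel' := by
          intro u v huv
          rw [SimpleGraph.fromRel_adj] at huv ⊢
          refine ⟨fun he => huv.1 (Prod.mk.inj he).1, ?_⟩
          rcases huv.2 with h1 | h1
          · left
            refine ⟨Or.inr h1, ?_⟩
            left
            simp
          · right
            refine ⟨Or.inr h1, ?_⟩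
            left
            simp }
    refine ⟨p.map φ, ?_⟩
    intro v hv
    rw [SimpleGraph.Walk.support_map, List.mem_map] at hv
    obtain ⟨w, _, rfl⟩ := hv
    have h1 : (Cay (vee S)).dist 1 (g, h) ≤ (Cay S).dist 1 h := (hle g h _).2 ⟨hgh, le_rfl⟩
    exact h1.trans (hg2 w h)

/-- Pockets of unbounded depth give unbounded retreat depth for the product. -/
theorem not_BR_perp (hS : ∀ x ∈ S, x⁻¹ ∈ S) (hgen : Subgroup.closure S = ⊤)
    (hpocket : ∀ D : ℕ, ∃ P : Set G, P.Finite ∧ ∃ x ∈ P, ∀ v ∈ P, ∀ s ∈ S, v * s ∉ P →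
      (Cay S).dist 1 v + D < (Cay S).dist 1 x) : ¬ BR (perp S) := by
  rintro ⟨D, hD⟩
  obtain ⟨P, hPfin, x₀, hx₀, hP₀⟩ := hpocket D
  -- an element of maximal length
  obtain ⟨x, hx, hmax⟩ := Set.exists_max_image P (fun v => (Cay S).dist 1 v) hPfin ⟨x₀, hx₀⟩
  have hP : ∀ v ∈ P, ∀ s ∈ S, v * s ∉ P → (Cay S).dist 1 v + D < (Cay S).dist 1 x :=
    fun v hv s hs hvs => (hP₀ v hv s hs hvs).trans_le (hmax x₀ hx₀)
  have hle : ∀ (g h : G), (Cay (perp S)).dist 1 (g, h) ≤
      (Cay S).dist 1 g + (Cay S).dist 1 h := by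
    intro g h
    exact dist_le_of_ball (ball_perp_mk (mem_ball_dist hS hgen g) (mem_ball_dist hS hgen h))
  have hge : ∀ (g h : G), (Cay S).dist 1 g + (Cay S).dist 1 h ≤
      (Cay (perp S)).dist 1 (g, h) := by
    intro g h
    obtain ⟨i, j, hij, hi, hj⟩ := ball_perp_split
      (mem_ball_dist (perp_symm hS) (perp_gen hgen) (g, h))
    have h1 := dist_le_of_ball hi
    have h2 := dist_le_of_ball hj
    omega
  obtain ⟨h, hhR, p, hp⟩ := hD (x, x) ((Cay S).dist 1 x + (Cay S).dist 1 x + 1)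
  have hhP : h ∉ P ×ˢ P := by
    rintro ⟨h1, h2⟩
    have h3 := hle h.1 h.2
    have h4 := hmax _ h1
    have h5 := hmax _ h2
    simp only [Prod.mk.eta] at h3 h4 h5
    omega
  obtain ⟨d, hd, hd1, hd2⟩ := p.exists_boundary_dart (P ×ˢ P) ⟨hx, hx⟩ hhP
  have h1 := hp d.fst (p.dart_fst_mem_support_of_mem_darts hd)
  have hadj := d.adj
  rw [SimpleGraph.fromRel_adj] at hadj
  have hstep : d.fst⁻¹ * d.snd ∈ perp S := by
    rcases hadj.2 with h | h
    · exact h
    · have := perp_symm hS _ h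
      rw [mul_inv_rev, inv_inv] at this
      exact this
  have hge' := hge x x
  have hle' := hle d.fst.1 d.fst.2
  have hm1 := hmax _ hd1.1
  have hm2 := hmax _ hd1.2
  simp only [Prod.mk.eta] at hle' hm1 hm2
  rcases hstep with ⟨h2, h3⟩ | ⟨h2, h3⟩
  · have e1 : d.snd.1 = d.fst.1 * (d.fst⁻¹ * d.snd).1 := by simp
    have e2 : d.snd.2 = d.fst.2 := by
      have : d.snd.2 = d.fst.2 * (d.fst⁻¹ * d.snd).2 := by simp
      rw [this, h3, mul_one]
    have h4 : d.fst.1 * (d.fst⁻¹ * d.snd).1 ∉ P := by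
      intro h5
      apply hd2
      refine ⟨?_, ?_⟩
      · rw [e1]; exact h5
      · rw [e2]; exact hd1.2
    have h6 := hP _ hd1.1 _ h2 h4
    omega
  · have e1 : d.snd.2 = d.fst.2 * (d.fst⁻¹ * d.snd).2 := by simp
    have e2 : d.snd.1 = d.fst.1 := by
      have : d.snd.1 = d.fst.1 * (d.fst⁻¹ * d.snd).1 := by simp
      rw [this, h2, mul_one]
    have h4 : d.fst.2 * (d.fst⁻¹ * d.snd).2 ∉ P := by
      intro h5
      apply hd2
      refine ⟨?_, ?_⟩
      · rw [e2]; exact hd1.1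
      · rw [e1]; exact h5
    have h6 := hP _ hd1.2 _ h3 h4
    omega

end Product

end Pool.Agent.MP_9b0338_al
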