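import Pool.Agent.Work.MP_9b0338_al.Frame
import Pool.Agent.Work.MP_9b0338_al.Word

set_option autoImplicit false

/-!
# Lower bounds for the word length
-/

namespace Pool.Agent.MP_9b0338_al

/-- A displacement of at most one step in the triangular lattice. -/
def Unit3 (i j : ℤ) : Prop :=
  (-1 ≤ i ∧ i ≤ 1) ∧ (-1 ≤ j ∧ j ≤ 1) ∧ (-1 ≤ i + j ∧ i + j ≤ 1)

/-- The generating set. -/
def gens {G : Type*} [Group G] (a t s : G) : Set G :=
  {x | ∃ i j : ℤ, Unit3 i j ∧ (x = tau t s i j ∨ x = tau t s i j * a ∨ x = a * tau t s i j)}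

section Path

variable {G : Type*} [Group G] {a t s : G}

theorem path_of_ball (F : Frame a t s) {m : ℕ} {g : G} (hg : g ∈ Ball (gens a t s) m) :
    ∃ γ : ℕ → ℤ × ℤ, γ 0 = (0, 0) ∧
      (∀ k, Unit3 ((γ (k + 1)).1 - (γ k).1) ((γ (k + 1)).2 - (γ k).2)) ∧
      ∃ f ∈ span a t s {p | ∃ k ≤ m, γ k = p}, g = f * tau t s (γ m).1 (γ m).2 := by
  induction m generalizing g with
  | zero =>
    have h1 : g = 1 := hg
    subst h1
    refine ⟨fun _ => (0, 0), rfl, ?_, 1, one_mem _, ?_⟩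
    · intro k
      simp [Unit3]
    · simp [tau]
  | succ m ih =>
    obtain ⟨h, hh, x, hx, rfl⟩ := hg
    obtain ⟨γ, hγ0, hγ, f, hf, rfl⟩ := ih hh
    have hx' : ∃ i j : ℤ, Unit3 i j ∧
        (x = tau t s i j ∨ x = tau t s i j * a ∨ x = a * tau t s i j) := by
      rcases hx with rfl | hx
      · exact ⟨0, 0, by simp [Unit3], Or.inl (by simp [tau])⟩
      · exact hx
    obtain ⟨i, j, hij, hx⟩ := hx'
    let γ' : ℕ → ℤ × ℤ := fun k => if k ≤ m then γ k else ((γ m).1 + i, (γ m).2 + j)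
    have hγ'1 : ∀ k ≤ m, γ' k = γ k := fun k hk => by simp [γ', hk]
    have hγ'2 : ∀ k, m < k → γ' k = ((γ m).1 + i, (γ m).2 + j) := fun k hk => by
      simp [γ', not_le.2 hk]
    have hsub : {p | ∃ k ≤ m, γ k = p} ⊆ {p | ∃ k ≤ m + 1, γ' k = p} := by
      rintro p ⟨k, hk, rfl⟩
      exact ⟨k, by omega, hγ'1 k hk⟩
    have hf' := span_mono (a := a) (t := t) (s := s) hsub hf
    have hm1 : ((γ m).1, (γ m).2) ∈ {p | ∃ k ≤ m + 1, γ' k = p} :=
      ⟨m, by omega, hγ'1 m le_rfl⟩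
    have hm2 : ((γ m).1 + i, (γ m).2 + j) ∈ {p | ∃ k ≤ m + 1, γ' k = p} :=
      ⟨m + 1, le_rfl, hγ'2 _ (by omega)⟩
    refine ⟨γ', ?_, ?_, ?_⟩
    · rw [hγ'1 0 (Nat.zero_le m), hγ0]
    · intro k
      rcases lt_trichotomy k m with h | h | h
      · rw [hγ'1 k h.le, hγ'1 (k + 1) h]
        exact hγ k
      · subst h
        rw [hγ'1 k le_rfl, hγ'2 (k + 1) (by omega)]
        simpa using hij
      · rw [hγ'2 k h, hγ'2 (k + 1) (by omega)]
        simp [Unit3]
    · rw [hγ'2 (m + 1) (by omega)]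
      simp only
      rcases hx with rfl | rfl | rfl
      · refine ⟨f, hf', ?_⟩
        rw [F.tau_add, mul_assoc]
      · refine ⟨f * cj a t s ((γ m).1 + i) ((γ m).2 + j), mul_mem hf' (cj_mem_span hm2), ?_⟩
        have h1 : tau t s ((γ m).1 + i) ((γ m).2 + j) * a =
          cj a t s ((γ m).1 + i) ((γ m).2 + j) * tau t s ((γ m).1 + i) ((γ m).2 + j) :=
          Frame.tau_mul_a _ _
        calc f * tau t s (γ m).1 (γ m).2 * (tau t s i j * a)
            = f * (tau t s (γ m).1 (γ m).2 * tau t s i j * a) := by group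
          _ = f * (tau t s ((γ m).1 + i) ((γ m).2 + j) * a) := by rw [← F.tau_add]
          _ = _ := by rw [h1, mul_assoc]
      · refine ⟨f * cj a t s (γ m).1 (γ m).2, mul_mem hf' (cj_mem_span hm1), ?_⟩
        calc f * tau t s (γ m).1 (γ m).2 * (a * tau t s i j)
            = f * (tau t s (γ m).1 (γ m).2 * a) * tau t s i j := by group
          _ = f * (cj a t s (γ m).1 (γ m).2 * tau t s (γ m).1 (γ m).2) * tau t s i j := by
              rw [Frame.tau_mul_a]
          _ = f * cj a t s (γ m).1 (γ m).2 * (tau t s (γ m).1 (γ m).2 * tau t s i j) := by group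
          _ = _ := by rw [← F.tau_add]

/-- Lipschitz bound along a path. -/
theorem path_lip {γ : ℕ → ℤ × ℤ}
    (hγ : ∀ k, Unit3 ((γ (k + 1)).1 - (γ k).1) ((γ (k + 1)).2 - (γ k).2)) (k d : ℕ) :
    (-(d : ℤ) ≤ (γ (k + d)).1 - (γ k).1 ∧ (γ (k + d)).1 - (γ k).1 ≤ d) ∧
    (-(d : ℤ) ≤ (γ (k + d)).2 - (γ k).2 ∧ (γ (k + d)).2 - (γ k).2 ≤ d) ∧
    (-(d : ℤ) ≤ (γ (k + d)).1 + (γ (k + d)).2 - (γ k).1 - (γ k).2 ∧
      (γ (k + d)).1 + (γ (k + d)).2 - (γ k).1 - (γ k).2 ≤ d) := by
  induction d with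
  | zero => simp
  | succ d ih =>
    have h := hγ (k + d)
    unfold Unit3 at h
    rw [← add_assoc]
    push_cast
    omega

/-- The metric estimate for a fixed order of the visits. -/
theorem visits_order {x y z : ℕ → ℤ} (hs : ∀ k, x k + y k + z k = 0)
    (hx : ∀ k l : ℕ, k ≤ l → x k - x l ≤ (l : ℤ) - k ∧ x l - x k ≤ (l : ℤ) - k)
    (hz : ∀ k l : ℕ, k ≤ l → z k - z l ≤ (l : ℤ) - k ∧ z l - z k ≤ (l : ℤ) - k)
    {k1 k2 k3 m : ℕ} {n : ℤ} (x0 : x 0 = 0) (zm : z m = 0)
    (h12 : k1 ≤ k2) (h23 : k2 ≤ k3) (h3m : k3 ≤ m)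
    (h1 : x k1 ≤ -n) (h2 : y k2 ≤ -n) (h3 : z k3 ≤ -n) : 5 * n ≤ m := by
  have a1 := (hx 0 k1 (Nat.zero_le _)).1
  have a2 := (hx k1 k2 h12).2
  have a3 := (hz k2 k3 h23).1
  have a4 := (hz k3 m h3m).2
  have a5 := hs k2
  rw [x0] at a1
  rw [zm] at a4
  push_cast at a1
  linarith

/-- The purely metric part of the lower bound: a closed path visiting three half planes. -/
theorem three_halfplanes {γ : ℕ → ℤ × ℤ} {m : ℕ} {n : ℤ} (h0 : γ 0 = (0, 0)) (hm : γ m = (0, 0))
    (hγ : ∀ k, Unit3 ((γ (k + 1)).1 - (γ k).1) ((γ (k + 1)).2 - (γ k).2))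
    (h1 : ∃ k ≤ m, (γ k).1 ≤ -n) (h2 : ∃ k ≤ m, (γ k).2 ≤ -n)
    (h3 : ∃ k ≤ m, n ≤ (γ k).1 + (γ k).2) : 5 * n ≤ m := by
  have key : ∀ k l : ℕ, k ≤ l →
      (-((l : ℤ) - k) ≤ (γ l).1 - (γ k).1 ∧ (γ l).1 - (γ k).1 ≤ (l : ℤ) - k) ∧
      (-((l : ℤ) - k) ≤ (γ l).2 - (γ k).2 ∧ (γ l).2 - (γ k).2 ≤ (l : ℤ) - k) ∧
      (-((l : ℤ) - k) ≤ (γ l).1 + (γ l).2 - (γ k).1 - (γ k).2 ∧
        (γ l).1 + (γ l).2 - (γ k).1 - (γ k).2 ≤ (l : ℤ) - k) := by
    intro k l hkl
    obtain ⟨d, rfl⟩ := Nat.exists_eq_add_of_le hkl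
    have := path_lip hγ k d
    push_cast
    simpa using this
  obtain ⟨k1, hk1, h1⟩ := h1
  obtain ⟨k2, hk2, h2⟩ := h2
  obtain ⟨k3, hk3, h3⟩ := h3
  let x : ℕ → ℤ := fun k => (γ k).1
  let y : ℕ → ℤ := fun k => (γ k).2
  let z : ℕ → ℤ := fun k => -(γ k).1 - (γ k).2
  have hx : ∀ k l : ℕ, k ≤ l → x k - x l ≤ (l : ℤ) - k ∧ x l - x k ≤ (l : ℤ) - k := by
    intro k l hkl
    have h := (key k l hkl).1
    exact ⟨by simp only [x]; linarith [h.1], by simp only [x]; linarith [h.2]⟩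
  have hy : ∀ k l : ℕ, k ≤ l → y k - y l ≤ (l : ℤ) - k ∧ y l - y k ≤ (l : ℤ) - k := by
    intro k l hkl
    have h := (key k l hkl).2.1
    exact ⟨by simp only [y]; linarith [h.1], by simp only [y]; linarith [h.2]⟩
  have hz : ∀ k l : ℕ, k ≤ l → z k - z l ≤ (l : ℤ) - k ∧ z l - z k ≤ (l : ℤ) - k := by
    intro k l hkl
    have h := (key k l hkl).2.2
    exact ⟨by simp only [z]; linarith [h.2], by simp only [z]; linarith [h.1]⟩
  have x0 : x 0 = 0 := by simp [x, h0]
  have y0 : y 0 = 0 := by simp [y, h0]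
  have z0 : z 0 = 0 := by simp [z, h0]
  have xm : x m = 0 := by simp [x, hm]
  have ym : y m = 0 := by simp [y, hm]
  have zm : z m = 0 := by simp [z, hm]
  have g1 : x k1 ≤ -n := h1
  have g2 : y k2 ≤ -n := h2
  have g3 : z k3 ≤ -n := by simp only [z]; linarith
  have sxyz : ∀ k, x k + y k + z k = 0 := fun k => by simp only [x, y, z]; ring
  have sxzy : ∀ k, x k + z k + y k = 0 := fun k => by simp only [x, y, z]; ring
  have syxz : ∀ k, y k + x k + z k = 0 := fun k => by simp only [x, y, z]; ring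
  have syzx : ∀ k, y k + z k + x k = 0 := fun k => by simp only [x, y, z]; ring
  have szxy : ∀ k, z k + x k + y k = 0 := fun k => by simp only [x, y, z]; ring
  have szyx : ∀ k, z k + y k + x k = 0 := fun k => by simp only [x, y, z]; ring
  clear_value x y z
  rcases le_total k1 k2 with h12 | h12
  · rcases le_total k2 k3 with h23 | h23
    · exact visits_order sxyz hx hz x0 zm h12 h23 hk3 g1 g2 g3
    · rcases le_total k1 k3 with h13 | h13
      · exact visits_order sxzy hx hy x0 ym h13 h23 hk2 g1 g3 g2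
      · exact visits_order szxy hz hy z0 ym h13 h12 hk2 g3 g1 g2
  · rcases le_total k1 k3 with h13 | h13
    · exact visits_order syxz hy hz y0 zm h12 h13 hk3 g2 g1 g3
    · rcases le_total k2 k3 with h23 | h23
      · exact visits_order syzx hy hx y0 xm h23 h13 hk1 g2 g3 g1
      · exact visits_order szyx hz hx z0 xm h23 h12 hk1 g3 g2 g1

end Path

/-- A configuration satisfying the three-dot rule. -/
def ThreeDot (θ : ℤ → ℤ → ZMod 2) : Prop := ∀ i j, θ i (j + 1) = θ i j + θ (i + 1) j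

/-- The shift of the first coordinate. -/
def shT : Equiv.Perm (ℤ × ℤ × ZMod 2) where
  toFun p := (p.1 + 1, p.2.1, p.2.2)
  invFun p := (p.1 - 1, p.2.1, p.2.2)
  left_inv p := by simp
  right_inv p := by simp

/-- The shift of the second coordinate. -/
def shS : Equiv.Perm (ℤ × ℤ × ZMod 2) where
  toFun p := (p.1, p.2.1 + 1, p.2.2)
  invFun p := (p.1, p.2.1 - 1, p.2.2)
  left_inv p := by simp
  right_inv p := by simp

theorem zmod2_add_self (x : ZMod 2) : x + x = 0 := CharTwo.add_self_eq_zero x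

/-- The switch given by a configuration. -/
def swA (θ : ℤ → ℤ → ZMod 2) : Equiv.Perm (ℤ × ℤ × ZMod 2) where
  toFun p := (p.1, p.2.1, p.2.2 + θ (-p.1) (-p.2.1))
  invFun p := (p.1, p.2.1, p.2.2 + θ (-p.1) (-p.2.1))
  left_inv p := by simp [add_assoc, zmod2_add_self]
  right_inv p := by simp [add_assoc, zmod2_add_self]

theorem frame_perm {θ : ℤ → ℤ → ZMod 2} (hθ : ThreeDot θ) : Frame (swA θ) shT shS where
  aa := by
    ext p
    all_goals simp [swA, add_assoc, zmod2_add_self]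
  comm := by
    ext p
    all_goals simp [shT, shS]
  rel := by
    have h : shS * swA θ = swA θ * (shT * swA θ * shT⁻¹) * shS := by
      ext ⟨i, j, e⟩
      · simp [shT, shS, swA]
      · simp [shT, shS, swA]
      · have h1 := hθ (-i) (-j - 1)
        have e1 : -j - 1 + 1 = -j := by ring
        rw [e1] at h1
        have e2 : -1 + -j = -j - 1 := by ring
        simp [shT, shS, swA, h1, e2, Equiv.Perm.inv_def]
        ring_nf
    rw [h]
    group

theorem shT_zpow (k : ℤ) (i j : ℤ) (e : ZMod 2) : (shT ^ k) (i, j, e) = (i + k, j, e) := by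
  induction k generalizing i with
  | zero => simp
  | succ k ih =>
    rw [zpow_add_one, Equiv.Perm.mul_apply]
    have : shT (i, j, e) = (i + 1, j, e) := rfl
    rw [this, ih]
    ring_nf
  | pred k ih =>
    rw [zpow_sub_one, Equiv.Perm.mul_apply]
    have : shT⁻¹ (i, j, e) = (i - 1, j, e) := rfl
    rw [this, ih]
    ring_nf

theorem shS_zpow (k : ℤ) (i j : ℤ) (e : ZMod 2) : (shS ^ k) (i, j, e) = (i, j + k, e) := by
  induction k generalizing j with
  | zero => simp
  | succ k ih =>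
    rw [zpow_add_one, Equiv.Perm.mul_apply]
    have : shS (i, j, e) = (i, j + 1, e) := rfl
    rw [this, ih]
    ring_nf
  | pred k ih =>
    rw [zpow_sub_one, Equiv.Perm.mul_apply]
    have : shS⁻¹ (i, j, e) = (i, j - 1, e) := rfl
    rw [this, ih]
    ring_nf

theorem tau_apply (k l i j : ℤ) (e : ZMod 2) :
    (tau shT shS k l) (i, j, e) = (i + k, j + l, e) := by
  rw [tau, Equiv.Perm.mul_apply, shS_zpow, shT_zpow]

theorem tau_inv_apply (k l i j : ℤ) (e : ZMod 2) :
    (tau shT shS k l)⁻¹ (i, j, e) = (i - k, j - l, e) := by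
  rw [Equiv.Perm.inv_eq_iff_eq, tau_apply]
  simp

theorem cj_apply (θ : ℤ → ℤ → ZMod 2) (k l i j : ℤ) (e : ZMod 2) :
    (cj (swA θ) shT shS k l) (i, j, e) = (i, j, e + θ (k - i) (l - j)) := by
  rw [cj, Equiv.Perm.mul_apply, Equiv.Perm.mul_apply, tau_inv_apply]
  have : swA θ (i - k, j - l, e) = (i - k, j - l, e + θ (-(i - k)) (-(j - l))) := rfl
  rw [this, tau_apply]
  simp

/-- A basic configuration supported on `i ≤ 0`. -/
def theta0 (i j : ℤ) : ZMod 2 := if 0 < i then 0 else ((Ring.choose j (-i).toNat : ℤ) : ZMod 2)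

theorem theta0_pos {i j : ℤ} (h : 0 < i) : theta0 i j = 0 := by simp [theta0, h]

theorem theta0_zero (j : ℤ) : theta0 0 j = 1 := by simp [theta0]

theorem theta0_succ (i j : ℤ) : theta0 i (j + 1) = theta0 i j + theta0 (i + 1) j := by
  rcases lt_trichotomy i 0 with h | h | h
  · obtain ⟨k, hk⟩ := Int.eq_ofNat_of_zero_le (show 0 ≤ -i - 1 by omega)
    have hi : i = -(k : ℤ) - 1 := by omega
    subst hi
    have e1 : (-(-(k : ℤ) - 1)).toNat = k + 1 := by omega
    have e2 : (-(-(k : ℤ) - 1 + 1)).toNat = k := by omega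
    have c1 : ¬ (0 < -(k : ℤ) - 1) := by omega
    have c2 : ¬ (0 < -(k : ℤ) - 1 + 1) := by omega
    simp only [theta0, c1, c2, if_false, e1, e2]
    rw [Ring.choose_succ_succ]
    push_cast
    ring
  · subst h
    simp [theta0]
  · rw [theta0_pos h, theta0_pos h, theta0_pos (by omega : 0 < i + 1)]
    simp

theorem threeDot_a (n : ℤ) : ThreeDot (fun i j => theta0 (i + n) j) := by
  intro i j
  simp only
  rw [theta0_succ]
  ring_nf

theorem threeDot_b (n : ℤ) : ThreeDot (fun i j => theta0 (j + n) i) := by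
  intro i j
  simp only
  have h := theta0_succ (j + n) i
  have e : j + 1 + n = j + n + 1 := by ring
  rw [e, h, ← add_assoc, zmod2_add_self, zero_add]

theorem threeDot_c (n : ℤ) : ThreeDot (fun i j => theta0 (-i - j + n) j) := by
  intro i j
  simp only
  have h := theta0_succ (-i - (j + 1) + n) j
  have e : -i - (j + 1) + n + 1 = -i - j + n := by ring
  have e2 : -(i + 1) - j + n = -i - (j + 1) + n := by ring
  rw [h, e, e2, add_comm]

/-! ### The presented group -/

/-- The generators of the free group. -/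
abbrev xa : FreeGroup (Fin 3) := FreeGroup.of 0
/-- The generators of the free group. -/
abbrev xt : FreeGroup (Fin 3) := FreeGroup.of 1
/-- The generators of the free group. -/
abbrev xs : FreeGroup (Fin 3) := FreeGroup.of 2

/-- The relators. -/
def rels : Set (FreeGroup (Fin 3)) :=
  {xa * xa, xs * xt * xs⁻¹ * xt⁻¹, xs * xa * xs⁻¹ * (xa * (xt * xa * xt⁻¹))⁻¹}

/-- The group `⟨a, t, s | a², [s, t], s a s⁻¹ = a (t a t⁻¹)⟩`. -/
abbrev Gam : Type := PresentedGroup rels

/-- The generator `a`. -/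
def ga : Gam := PresentedGroup.of 0
/-- The generator `t`. -/
def gt : Gam := PresentedGroup.of 1
/-- The generator `s`. -/
def gs : Gam := PresentedGroup.of 2

theorem frame_gam : Frame ga gt gs where
  aa := by
    have h : PresentedGroup.mk rels (xa * xa) = 1 :=
      PresentedGroup.one_of_mem (by simp [rels])
    exact h
  comm := by
    have h : PresentedGroup.mk rels (xs * xt * xs⁻¹ * xt⁻¹) = 1 :=
      PresentedGroup.one_of_mem (by simp [rels])
    have h2 : gs * gt * gs⁻¹ * gt⁻¹ = 1 := h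
    rw [mul_inv_eq_one, mul_inv_eq_iff_eq_mul] at h2
    exact h2
  rel := by
    have h : PresentedGroup.mk rels (xs * xa * xs⁻¹ * (xa * (xt * xa * xt⁻¹))⁻¹) = 1 :=
      PresentedGroup.one_of_mem (by simp [rels])
    have h2 : gs * ga * gs⁻¹ * (ga * (gt * ga * gt⁻¹))⁻¹ = 1 := h
    rw [mul_inv_eq_one] at h2
    exact h2

/-- A frame in any group gives a homomorphism from the presented group. -/
theorem exists_hom {H : Type*} [Group H] {a t s : H} (F : Frame a t s) :
    ∃ ρ : Gam →* H, ρ ga = a ∧ ρ gt = t ∧ ρ gs = s := by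
  let f : Fin 3 → H := ![a, t, s]
  have hf : ∀ r ∈ rels, FreeGroup.lift f r = 1 := by
    intro r hr
    rcases hr with rfl | rfl | rfl
    · simpa [f] using F.aa
    · have := F.comm.eq
      simp [f, this]
    · have := F.rel
      simp only [map_mul, map_inv, FreeGroup.lift_apply_of, f]
      rw [mul_inv_eq_one]
      simpa using this
  refine ⟨PresentedGroup.toGroup hf, ?_, ?_, ?_⟩
  · exact PresentedGroup.toGroup.of hf
  · exact PresentedGroup.toGroup.of hf
  · exact PresentedGroup.toGroup.of hf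

theorem map_tau {G H : Type*} [Group G] [Group H] (ρ : G →* H) (t s : G) (i j : ℤ) :
    ρ (tau t s i j) = tau (ρ t) (ρ s) i j := by simp [tau]

theorem map_cj {G H : Type*} [Group G] [Group H] (ρ : G →* H) (a t s : G) (i j : ℤ) :
    ρ (cj a t s i j) = cj (ρ a) (ρ t) (ρ s) i j := by simp [cj, map_tau]

/-- The test element. -/
def xn (n : ℤ) : Gam := cj ga gt gs (-n) (-n) * cj ga gt gs 0 n

theorem detect {m : ℕ} {n : ℤ} {γ : ℕ → ℤ × ℤ} {f : Gam}
    (hf : f ∈ span ga gt gs {p | ∃ k ≤ m, γ k = p}) (hx : xn n = f * tau gt gs (γ m).1 (γ m).2)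
    {θ : ℤ → ℤ → ZMod 2} (hθ : ThreeDot θ) :
    γ m = (0, 0) ∧ (θ (-n) (-n) + θ 0 n ≠ 0 → ∃ k ≤ m, θ (γ k).1 (γ k).2 ≠ 0) := by
  obtain ⟨ρ, ha, ht, hs⟩ := exists_hom (frame_perm hθ)
  -- elements of the span preserve positions
  have hpos : ∀ i j e, ((ρ f) (i, j, e)).1 = i ∧ ((ρ f) (i, j, e)).2.1 = j := by
    let K : Subgroup Gam :=
      { carrier := {g | ∀ i j e, ((ρ g) (i, j, e)).1 = i ∧ ((ρ g) (i, j, e)).2.1 = j}
        mul_mem' := by
          intro x y hx hy i j e
          rw [map_mul, Equiv.Perm.mul_apply]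
          obtain ⟨h1, h2⟩ := hy i j e
          have h3 := hx ((ρ y) (i, j, e)).1 ((ρ y) (i, j, e)).2.1 ((ρ y) (i, j, e)).2.2
          simp only [Prod.mk.eta] at h3
          rw [h3.1, h3.2]
          exact ⟨h1, h2⟩
        one_mem' := by
          intro i j e
          simp
        inv_mem' := by
          intro x hx i j e
          have h3 := hx ((ρ x⁻¹) (i, j, e)).1 ((ρ x⁻¹) (i, j, e)).2.1 ((ρ x⁻¹) (i, j, e)).2.2
          simp only [Prod.mk.eta] at h3
          have h4 : (ρ x) ((ρ x⁻¹) (i, j, e)) = (i, j, e) := by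
            rw [← Equiv.Perm.mul_apply, ← map_mul]
            simp
          rw [h4] at h3
          exact ⟨h3.1.symm, h3.2.symm⟩ }
    have hK : span ga gt gs {p | ∃ k ≤ m, γ k = p} ≤ K := by
      apply span_le
      intro k l _ i j e
      rw [map_cj, ha, ht, hs, cj_apply]
      exact ⟨rfl, rfl⟩
    exact hK hf
  have hxn : (ρ (xn n)) (0, 0, 0) = (0, 0, θ (-n) (-n) + θ 0 n) := by
    rw [xn, map_mul, map_cj, map_cj, ha, ht, hs, Equiv.Perm.mul_apply, cj_apply, cj_apply]
    simp [add_comm]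
  have hft : (ρ (f * tau gt gs (γ m).1 (γ m).2)) (0, 0, 0) =
      (ρ f) ((γ m).1, (γ m).2, 0) := by
    rw [map_mul, map_tau, ht, hs, Equiv.Perm.mul_apply, tau_apply]
    simp
  rw [← hx, hxn] at hft
  have hγ : γ m = (0, 0) := by
    have h1 := hpos (γ m).1 (γ m).2 0
    rw [← hft] at h1
    exact Prod.ext h1.1.symm h1.2.symm
  refine ⟨hγ, ?_⟩
  intro hne
  by_contra hcon
  push Not at hcon
  rw [hγ] at hft
  have hfix : ∀ e, (ρ f) (0, 0, e) = (0, 0, e) := by
    let K : Subgroup Gam :=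
      { carrier := {g | ∀ e, (ρ g) (0, 0, e) = (0, 0, e)}
        mul_mem' := by
          intro x y hx hy e
          rw [map_mul, Equiv.Perm.mul_apply, hy, hx]
        one_mem' := by
          intro e
          simp
        inv_mem' := by
          intro x hx e
          rw [map_inv, Equiv.Perm.inv_eq_iff_eq, hx] }
    have hK : span ga gt gs {p | ∃ k ≤ m, γ k = p} ≤ K := by
      apply span_le
      rintro k l ⟨q, hq, hqe⟩ e
      rw [map_cj, ha, ht, hs, cj_apply]
      have := hcon q hq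
      rw [hqe] at this
      simp only at this
      simp [this]
    exact hK hf
  rw [hfix] at hft
  have := congrArg (fun p : ℤ × ℤ × ZMod 2 => p.2.2) hft
  exact hne this

/-- The lower bound for the word length of the test element. -/
theorem lower_bound {m : ℕ} {n : ℤ} (hn : 0 < n) (hx : xn n ∈ Ball (gens ga gt gs) m) :
    5 * n ≤ m := by
  obtain ⟨γ, h0, hγ, f, hf, hxe⟩ := path_of_ball frame_gam hx
  have da := detect hf hxe (threeDot_a n)
  have db := detect hf hxe (threeDot_b n)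
  have dc := detect hf hxe (threeDot_c n)
  refine three_halfplanes h0 da.1 hγ ?_ ?_ ?_
  · obtain ⟨k, hk, h⟩ := da.2 (by
      have e1 : -n + n = 0 := by ring
      rw [e1, theta0_zero, theta0_pos (by omega)]
      decide)
    refine ⟨k, hk, ?_⟩
    by_contra hc
    exact h (theta0_pos (by omega))
  · obtain ⟨k, hk, h⟩ := db.2 (by
      have e1 : -n + n = 0 := by ring
      rw [e1, theta0_zero, theta0_pos (by omega)]
      decide)
    refine ⟨k, hk, ?_⟩
    by_contra hc
    exact h (theta0_pos (by omega))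
  · obtain ⟨k, hk, h⟩ := dc.2 (by
      have e1 : -0 - n + n = 0 := by ring
      rw [e1, theta0_zero, theta0_pos (by omega)]
      decide)
    refine ⟨k, hk, ?_⟩
    by_contra hc
    exact h (theta0_pos (by omega))

end Pool.Agent.MP_9b0338_al
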