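import Pool.Agent.Work.MP_9b0338_al.Lower

set_option autoImplicit false

/-!
# Upper bounds for the word length on the boundary of the pocket
-/

namespace Pool.Agent.MP_9b0338_al

/-- The combinatorial propagation lemma for the three-dot rule. -/
theorem comb (n p q : ℕ) (hpq : p + q = 2 * n) (Z : ℤ → ℤ → Prop)
    (h1 : ∀ i j, Z i j → Z (i + 1) j → Z i (j + 1))
    (h2 : ∀ i j, Z i j → Z i (j + 1) → Z (i + 1) j)
    (h3 : ∀ i j, Z (i + 1) j → Z i (j + 1) → Z i j)
    (v1 : ∀ x : ℕ, x ≤ n → Z (-x) 0) (v2 : ∀ x : ℕ, x ≤ n → Z (-n + x) (-x))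
    (v3 : ∀ x : ℕ, x ≤ p → Z x (-n)) (v4 : ∀ x : ℕ, x ≤ q → Z p (-n + x)) :
    ∀ i j : ℤ, -(n : ℤ) ≤ i → -(n : ℤ) ≤ j → i + j ≤ n → Z i j := by
  have A1 : ∀ y : ℕ, ∀ i : ℤ, -(n : ℤ) ≤ i → i + y ≤ 0 → Z i y := by
    intro y
    induction y with
    | zero =>
      intro i hi hi0
      obtain ⟨x, hx⟩ := Int.eq_ofNat_of_zero_le (show 0 ≤ -i by push_cast at hi0; omega)
      have hx' : i = -(x : ℤ) := by omega
      subst hx'
      simpa using v1 x (by omega)
    | succ y ih =>
      intro i hi hi0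
      push_cast at hi0 ⊢
      exact h1 i y (ih i hi (by omega)) (ih (i + 1) (by omega) (by omega))
  have A2 : ∀ y : ℕ, y ≤ n → ∀ c : ℕ, c ≤ n → Z (-n + c + y) (-y) := by
    intro y
    induction y with
    | zero =>
      intro _ c hc
      have e : (-(n : ℤ) + c + ((0 : ℕ) : ℤ)) = -((n - c : ℕ) : ℤ) := by omega
      rw [e]
      simpa using v1 (n - c) (by omega)
    | succ y ih =>
      intro hy c
      induction c with
      | zero =>
        intro _
        have := v2 (y + 1) hy
        simpa using this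
      | succ c ihc =>
        intro hc
        have e1 := ihc (by omega)
        have e2 := ih (by omega) (c + 1) hc
        have := h2 (-n + c + ((y + 1 : ℕ) : ℤ)) (-((y + 1 : ℕ) : ℤ)) e1 (by
          have e3 : (-(n : ℤ) + ((c + 1 : ℕ) : ℤ) + y) = -n + c + ((y + 1 : ℕ) : ℤ) := by
            push_cast; ring
          have e4 : (-((y + 1 : ℕ) : ℤ) + 1) = -(y : ℤ) := by push_cast; ring
          rw [e4, ← e3]
          exact e2)
        have e5 : (-(n : ℤ) + ((c + 1 : ℕ) : ℤ) + ((y + 1 : ℕ) : ℤ)) =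
            -n + c + ((y + 1 : ℕ) : ℤ) + 1 := by push_cast; ring
        rw [e5]
        exact this
  have A3 : ∀ d : ℕ, ∀ i j : ℤ, -(n : ℤ) ≤ i → -(n : ℤ) ≤ j → i + j = -(n : ℤ) - d → Z i j := by
    intro d
    induction d with
    | zero =>
      intro i j hi hj hij
      obtain ⟨x, hx⟩ := Int.eq_ofNat_of_zero_le (show 0 ≤ i + n by omega)
      have hx' : i = -(n : ℤ) + x := by omega
      have hj' : j = -(x : ℤ) := by push_cast at hij; omega
      subst hx'
      subst hj'
      exact v2 x (by omega)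
    | succ d ih =>
      intro i j hi hj hij
      push_cast at hij
      exact h3 i j (ih (i + 1) j (by omega) hj (by omega)) (ih i (j + 1) hi (by omega) (by omega))
  have A4 : ∀ i j : ℤ, -(n : ℤ) ≤ i → -(n : ℤ) ≤ j → i + j ≤ 0 → Z i j := by
    intro i j hi hj hij
    rcases le_total 0 j with hj0 | hj0
    · obtain ⟨y, hy⟩ := Int.eq_ofNat_of_zero_le hj0
      subst hy
      exact A1 y i hi hij
    · rcases le_total (i + j) (-(n : ℤ)) with hl | hl
      · obtain ⟨d, hd⟩ := Int.eq_ofNat_of_zero_le (show 0 ≤ -(n : ℤ) - (i + j) by omega)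
        exact A3 d i j hi hj (by omega)
      · obtain ⟨y, hy⟩ := Int.eq_ofNat_of_zero_le (show 0 ≤ -j by omega)
        obtain ⟨c, hc⟩ := Int.eq_ofNat_of_zero_le (show 0 ≤ i + n + j by omega)
        have hj' : j = -(y : ℤ) := by omega
        have hi' : i = -(n : ℤ) + c + y := by omega
        rw [hi', hj']
        exact A2 y (by omega) c (by omega)
  have A5 : ∀ l : ℕ, l ≤ n → ∀ i j : ℤ, -(n : ℤ) ≤ i → -(n : ℤ) ≤ j → i + j = l → Z i j := by
    intro l
    induction l with
    | zero =>
      intro _ i j hi hj hij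
      exact A4 i j hi hj (by push_cast at hij; omega)
    | succ l ih =>
      intro hl
      have IH := ih (by omega)
      have hex : ∃ i0 j0 : ℤ, -(n : ℤ) ≤ i0 ∧ -(n : ℤ) ≤ j0 ∧ i0 + j0 = ((l + 1 : ℕ) : ℤ) ∧
          Z i0 j0 := by
        rcases le_or_gt (l + 1 + n) p with h | h
        · refine ⟨((l + 1 + n : ℕ) : ℤ), -n, by omega, le_rfl, by push_cast; ring, v3 _ h⟩
        · refine ⟨p, -n + ((l + 1 + n - p : ℕ) : ℤ), by omega, by omega, by omega, v4 _ (by omega)⟩
      obtain ⟨i0, j0, hi0, hj0, hij0, hZ⟩ := hex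
      have hr : ∀ d : ℕ, -(n : ℤ) ≤ j0 - d → Z (i0 + d) (j0 - d) := by
        intro d
        induction d with
        | zero => intro _; simpa using hZ
        | succ d ihd =>
          intro hd
          push_cast at hd ⊢
          have e1 := ihd (by omega)
          have e2 := IH (i0 + d) (j0 - (d + 1)) (by omega) (by omega) (by push_cast at hij0; omega)
          have e3 := h2 (i0 + d) (j0 - (d + 1)) e2 (by
            have e4 : j0 - ((d : ℤ) + 1) + 1 = j0 - d := by ring
            rw [e4]; exact e1)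
          have e5 : i0 + ((d : ℤ) + 1) = i0 + d + 1 := by ring
          rw [e5]
          exact e3
      have hl' : ∀ d : ℕ, -(n : ℤ) ≤ i0 - d → Z (i0 - d) (j0 + d) := by
        intro d
        induction d with
        | zero => intro _; simpa using hZ
        | succ d ihd =>
          intro hd
          push_cast at hd ⊢
          have e1 := ihd (by omega)
          have e2 := IH (i0 - (d + 1)) (j0 + d) (by omega) (by omega) (by push_cast at hij0; omega)
          have e3 := h1 (i0 - (d + 1)) (j0 + d) e2 (by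
            have e4 : i0 - ((d : ℤ) + 1) + 1 = i0 - d := by ring
            rw [e4]; exact e1)
          have e5 : j0 + ((d : ℤ) + 1) = j0 + d + 1 := by ring
          rw [e5]
          exact e3
      intro i j hi hj hij
      rcases le_total i0 i with h | h
      · obtain ⟨d, rfl⟩ := Int.le.dest h
        have : j = j0 - d := by omega
        rw [this]
        exact hr d (by omega)
      · obtain ⟨d, hd⟩ := Int.le.dest h
        have e1 : i = i0 - d := by omega
        have e2 : j = j0 + d := by omega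
        rw [e1, e2]
        exact hl' d (by omega)
  intro i j hi hj hij
  rcases le_total (i + j) 0 with h | h
  · exact A4 i j hi hj h
  · obtain ⟨l, hl⟩ := Int.eq_ofNat_of_zero_le h
    exact A5 l (by omega) i j hi hj hl

section Reach

variable {G : Type*} [Group G] {a t s : G}

/-- The set `S` contains all the unit translations, also followed by `a`. -/
def GoodS (S : Set G) (a t s : G) : Prop :=
  ∀ i j, Unit3 i j → tau t s i j ∈ S ∧ tau t s i j * a ∈ S

/-- Every element of the span of `V`, followed by the translation `(i, j)`, has length at most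
`m`. -/
def Reach (S : Set G) (a t s : G) (m : ℕ) (V : Set (ℤ × ℤ)) (i j : ℤ) : Prop :=
  ∀ f ∈ span a t s V, f * tau t s i j ∈ Ball S m

theorem reach_zero (F : Frame a t s) {S : Set G} (hS : GoodS S a t s) :
    Reach S a t s 1 {(0, 0)} 0 0 := by
  intro f hf
  have h0 : ({(0, 0)} : Set (ℤ × ℤ)) = insert (0, 0) ∅ := by simp
  rw [h0] at hf
  have ha : a ∈ S := by
    have := (hS 0 0 (by simp [Unit3])).2
    simpa [tau] using this
  rw [Frame.tau_zero, mul_one]
  rcases F.mem_span_insert hf with h | h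
  · simp only [span, Set.image_empty, Subgroup.closure_empty, Subgroup.mem_bot] at h
    rw [h]
    exact one_mem_ball 1
  · simp only [span, Set.image_empty, Subgroup.closure_empty, Subgroup.mem_bot,
      Frame.cj_zero] at h
    have : f = a := by
      have h2 : f * a * a = a := by rw [h, one_mul]
      rwa [mul_assoc, F.aa, mul_one] at h2
    rw [this]
    exact mem_ball_one ha

theorem reach_step (F : Frame a t s) {S : Set G} (hS : GoodS S a t s) {m : ℕ}
    {V : Set (ℤ × ℤ)} {i j : ℤ} (h : Reach S a t s m V i j) {k l : ℤ} (hkl : Unit3 k l) :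
    Reach S a t s (m + 1) (insert (i + k, j + l) V) (i + k) (j + l) := by
  intro f hf
  rcases F.mem_span_insert hf with h1 | h1
  · have h2 := h f h1
    rw [F.tau_add, ← mul_assoc]
    exact ball_mul_mem h2 (hS k l hkl).1
  · have h2 := h _ h1
    have h3 : f * tau t s (i + k) (j + l) =
        f * cj a t s (i + k) (j + l) * tau t s i j * (tau t s k l * a) := by
      calc f * tau t s (i + k) (j + l)
          = f * (cj a t s (i + k) (j + l) * cj a t s (i + k) (j + l)) *
              tau t s (i + k) (j + l) := by rw [F.cj_sq, mul_one]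
        _ = f * cj a t s (i + k) (j + l) *
              (cj a t s (i + k) (j + l) * tau t s (i + k) (j + l)) := by group
        _ = f * cj a t s (i + k) (j + l) * (tau t s (i + k) (j + l) * a) := by
              rw [← Frame.tau_mul_a]
        _ = _ := by rw [F.tau_add]; group
    rw [h3]
    exact ball_mul_mem h2 (hS k l hkl).2

theorem reach_mono {S : Set G} {m m' : ℕ} {V V' : Set (ℤ × ℤ)} {i j : ℤ}
    (h : Reach S a t s m V i j) (hm : m ≤ m') (hV : V' ⊆ V) : Reach S a t s m' V' i j :=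
  fun f hf => ball_mono hm (h f (span_mono hV hf))

theorem reach_segment (F : Frame a t s) {S : Set G} (hS : GoodS S a t s) {m : ℕ}
    {V : Set (ℤ × ℤ)} {i j : ℤ} (h : Reach S a t s m V i j) {k l : ℤ} (hkl : Unit3 k l) (d : ℕ) :
    Reach S a t s (m + d) (V ∪ {p | ∃ x : ℕ, 1 ≤ x ∧ x ≤ d ∧ p = (i + x * k, j + x * l)})
      (i + d * k) (j + d * l) := by
  induction d with
  | zero =>
    refine reach_mono (V := V) (m := m) ?_ le_rfl ?_
    · simpa using h
    · rintro p (hp | ⟨x, hx1, hx2, _⟩)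
      · exact hp
      · omega
  | succ d ih =>
    have h2 := reach_step F hS ih hkl
    have e1 : i + (d : ℤ) * k + k = i + ((d + 1 : ℕ) : ℤ) * k := by push_cast; ring
    have e2 : j + (d : ℤ) * l + l = j + ((d + 1 : ℕ) : ℤ) * l := by push_cast; ring
    rw [e1, e2] at h2
    refine reach_mono h2 (by omega) ?_
    rintro p (hp | ⟨x, hx1, hx2, hp⟩)
    · exact Or.inr (Or.inl hp)
    · rcases Nat.lt_or_ge d x with hx | hx
      · left
        have : x = d + 1 := by omega
        rw [hp, this]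
      · exact Or.inr (Or.inr ⟨x, hx1, hx, hp⟩)

/-- The triangle. -/
def Tri (n : ℕ) : Set (ℤ × ℤ) := {p | -(n : ℤ) ≤ p.1 ∧ -(n : ℤ) ≤ p.2 ∧ p.1 + p.2 ≤ n}

/-- The main upper bound, for one sixth of the boundary of the triangle. -/
theorem upper_main (F : Frame a t s) {S : Set G} (hS : GoodS S a t s) (n p q : ℕ)
    (hpq : p + q = 2 * n) : Reach S a t s (4 * n + 1) (Tri n) p (q - n) := by
  have r0 := reach_zero F hS
  have r1 := reach_segment F hS r0 (k := -1) (l := 0) (by unfold Unit3; omega) n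
  have r2 := reach_segment F hS r1 (k := 1) (l := -1) (by unfold Unit3; omega) n
  have r3 := reach_segment F hS r2 (k := 1) (l := 0) (by unfold Unit3; omega) p
  have r4 := reach_segment F hS r3 (k := 0) (l := 1) (by unfold Unit3; omega) q
  have e1 : (0 + (n : ℤ) * -1 + (n : ℤ) * 1 + (p : ℤ) * 1 + (q : ℤ) * 0) = p := by ring
  have e2 : (0 + (n : ℤ) * 0 + (n : ℤ) * -1 + (p : ℤ) * 0 + (q : ℤ) * 1) = q - n := by ring
  rw [e1, e2] at r4
  intro f hf
  refine reach_mono r4 (by omega) subset_rfl f ?_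
  set V := (((({((0 : ℤ), (0 : ℤ))} : Set (ℤ × ℤ)) ∪
    {p | ∃ x : ℕ, 1 ≤ x ∧ x ≤ n ∧ p = (0 + (x : ℤ) * -1, 0 + (x : ℤ) * 0)}) ∪
    {p | ∃ x : ℕ, 1 ≤ x ∧ x ≤ n ∧ p = (0 + (n : ℤ) * -1 + (x : ℤ) * 1,
      0 + (n : ℤ) * 0 + (x : ℤ) * -1)}) ∪
    {p_1 | ∃ x : ℕ, 1 ≤ x ∧ x ≤ p ∧ p_1 = (0 + (n : ℤ) * -1 + (n : ℤ) * 1 + (x : ℤ) * 1,
      0 + (n : ℤ) * 0 + (n : ℤ) * -1 + (x : ℤ) * 0)}) ∪
    {p_1 | ∃ x : ℕ, 1 ≤ x ∧ x ≤ q ∧ p_1 = (0 + (n : ℤ) * -1 + (n : ℤ) * 1 + (p : ℤ) * 1 +
      (x : ℤ) * 0, 0 + (n : ℤ) * 0 + (n : ℤ) * -1 + (p : ℤ) * 0 + (x : ℤ) * 1)} with hV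
  have hle : span a t s (Tri n) ≤ span a t s V := by
    apply span_le
    intro i j hij
    have m1 : ∀ x : ℕ, x ≤ n → ((-(x : ℤ), (0 : ℤ)) : ℤ × ℤ) ∈ V := by
      intro x hx
      rcases Nat.eq_zero_or_pos x with h | h
      · subst h
        left; left; left; left
        simp
      · left; left; left; right
        exact ⟨x, h, hx, by ring_nf⟩
    have m2 : ∀ x : ℕ, x ≤ n → ((-(n : ℤ) + x, -(x : ℤ)) : ℤ × ℤ) ∈ V := by
      intro x hx
      rcases Nat.eq_zero_or_pos x with h | h
      · subst h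
        simpa using m1 n le_rfl
      · left; left; right
        exact ⟨x, h, hx, by ring_nf⟩
    have m3 : ∀ x : ℕ, x ≤ p → (((x : ℤ), -(n : ℤ)) : ℤ × ℤ) ∈ V := by
      intro x hx
      rcases Nat.eq_zero_or_pos x with h | h
      · subst h
        simpa using m2 n le_rfl
      · left; right
        exact ⟨x, h, hx, by ring_nf⟩
    have m4 : ∀ x : ℕ, x ≤ q → (((p : ℤ), -(n : ℤ) + x) : ℤ × ℤ) ∈ V := by
      intro x hx
      rcases Nat.eq_zero_or_pos x with h | h
      · subst h
        simpa using m3 p le_rfl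
      · right
        exact ⟨x, h, hx, by ring_nf⟩
    refine comb n p q hpq (fun i j => cj a t s i j ∈ span a t s V)
      (fun i j => (F.span_three i j).1) (fun i j => (F.span_three i j).2.1)
      (fun i j => (F.span_three i j).2.2) ?_ ?_ ?_ ?_ i j hij.1 hij.2.1 hij.2.2
    · exact fun x hx => cj_mem_span (m1 x hx)
    · exact fun x hx => cj_mem_span (m2 x hx)
    · exact fun x hx => cj_mem_span (m3 x hx)
    · exact fun x hx => cj_mem_span (m4 x hx)
  exact hle hf

/-! ### Symmetries -/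

theorem tau_swap (F : Frame a t s) (i j : ℤ) : tau s t j i = tau t s i j := by
  unfold tau
  exact (F.comm.zpow_zpow j i).eq

theorem frame_swap (F : Frame a t s) : Frame a s t where
  aa := F.aa
  comm := F.comm.symm
  rel := by
    rw [F.rel, ← mul_assoc, F.aa, one_mul]

theorem cj_swap (F : Frame a t s) (i j : ℤ) : cj a s t j i = cj a t s i j := by
  unfold cj
  rw [tau_swap F]

theorem goodS_swap (F : Frame a t s) {S : Set G} (hS : GoodS S a t s) : GoodS S a s t := by
  intro i j hij
  rw [tau_swap F j i]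
  exact hS j i (by unfold Unit3 at *; omega)

theorem span_tri_swap (F : Frame a t s) (n : ℕ) : span a t s (Tri n) ≤ span a s t (Tri n) := by
  apply span_le
  intro i j hij
  rw [← cj_swap F]
  apply cj_mem_span
  unfold Tri at *
  simp only [Set.mem_ofPred_eq] at *
  omega

theorem tau_rot (F : Frame a t s) (i j : ℤ) :
    tau t⁻¹ (t⁻¹ * s) (-i - j) j = tau t s i j := by
  unfold tau
  have h : Commute t⁻¹ s := F.comm.symm.inv_left
  rw [h.mul_zpow, inv_zpow', inv_zpow', ← mul_assoc, ← zpow_add]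
  congr 2
  ring

theorem frame_rot (F : Frame a t s) : Frame a t⁻¹ (t⁻¹ * s) where
  aa := F.aa
  comm := by
    have h : Commute s t⁻¹ := F.comm.inv_right
    exact (Commute.refl t⁻¹).mul_left h
  rel := by
    have h1 : t⁻¹ * s * a * (t⁻¹ * s)⁻¹ = t⁻¹ * (s * a * s⁻¹) * t := by group
    rw [h1, F.rel]
    have h2 := F.commute_one (-1) 0
    have e1 : cj a t s (-1) 0 = t⁻¹ * a * t := by simp [cj, tau]
    have e2 : cj a t s (-1 + 1) 0 = a := by simp [cj, tau]
    rw [e1, e2] at h2
    calc t⁻¹ * (a * (t * a * t⁻¹)) * t = (t⁻¹ * a * t) * a := by group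
      _ = a * (t⁻¹ * a * t) := h2.eq
      _ = a * (t⁻¹ * a * t⁻¹⁻¹) := by rw [inv_inv]

theorem cj_rot (F : Frame a t s) (i j : ℤ) :
    cj a t⁻¹ (t⁻¹ * s) (-i - j) j = cj a t s i j := by
  unfold cj
  rw [tau_rot F]

theorem goodS_rot (F : Frame a t s) {S : Set G} (hS : GoodS S a t s) :
    GoodS S a t⁻¹ (t⁻¹ * s) := by
  intro i j hij
  have h := tau_rot F (-i - j) j
  have e : -(-i - j) - j = i := by ring
  rw [e] at h
  rw [h]
  exact hS (-i - j) j (by unfold Unit3 at *; omega)

theorem span_tri_rot (F : Frame a t s) (n : ℕ) :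
    span a t s (Tri n) ≤ span a t⁻¹ (t⁻¹ * s) (Tri n) := by
  apply span_le
  intro i j hij
  rw [← cj_rot F]
  apply cj_mem_span
  unfold Tri at *
  simp only [Set.mem_ofPred_eq] at *
  omega

theorem upper_c (F : Frame a t s) {S : Set G} (hS : GoodS S a t s) (n : ℕ) (i j : ℤ)
    (hi : -(n : ℤ) ≤ i) (hj : -(n : ℤ) ≤ j) (hij : i + j = n) :
    Reach S a t s (4 * n + 1) (Tri n) i j := by
  rcases le_total 0 i with h | h
  · obtain ⟨p, hp⟩ := Int.eq_ofNat_of_zero_le h
    obtain ⟨q, hq⟩ := Int.eq_ofNat_of_zero_le (show 0 ≤ j + n by omega)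
    have := upper_main F hS n p q (by omega)
    have e : j = q - n := by omega
    rw [hp, e]
    exact this
  · obtain ⟨p, hp⟩ := Int.eq_ofNat_of_zero_le (show 0 ≤ j by omega)
    obtain ⟨q, hq⟩ := Int.eq_ofNat_of_zero_le (show 0 ≤ i + n by omega)
    have := upper_main (frame_swap F) (goodS_swap F hS) n p q (by omega)
    have e : i = q - n := by omega
    intro f hf
    have h2 := this f (span_tri_swap F n hf)
    rw [← hp, ← e, tau_swap F] at h2
    exact h2

theorem upper_a (F : Frame a t s) {S : Set G} (hS : GoodS S a t s) (n : ℕ) (i j : ℤ)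
    (hi : -(n : ℤ) = i) (hj : -(n : ℤ) ≤ j) (hij : i + j ≤ n) :
    Reach S a t s (4 * n + 1) (Tri n) i j := by
  have := upper_c (frame_rot F) (goodS_rot F hS) n (-i - j) j (by omega) hj (by omega)
  intro f hf
  have h2 := this f (span_tri_rot F n hf)
  rw [tau_rot F] at h2
  exact h2

theorem upper_b (F : Frame a t s) {S : Set G} (hS : GoodS S a t s) (n : ℕ) (i j : ℤ)
    (hi : -(n : ℤ) ≤ i) (hj : -(n : ℤ) = j) (hij : i + j ≤ n) :
    Reach S a t s (4 * n + 1) (Tri n) i j := by
  have := upper_a (frame_swap F) (goodS_swap F hS) n j i hj hi (by omega)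
  intro f hf
  have h2 := this f (span_tri_swap F n hf)
  rw [tau_swap F] at h2
  exact h2

end Reach

end Pool.Agent.MP_9b0338_al
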